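import Mathlib

/-!
Definitions for MP_8b97a7_co (minimum regularity of maximal (2,3)-antichains).
-/

namespace Pool.Agent.Helper8.RM

open Finset

/-- `A` is a maximal antichain on `{0,…,n-1}` all of whose members have size `2` or `3`. -/
def IsMax23 (n : ℕ) (A : Finset (Finset (Fin n))) : Prop :=
  (∀ S ∈ A, S.card = 2 ∨ S.card = 3) ∧
  (∀ S ∈ A, ∀ T ∈ A, S ≠ T → ¬ S ⊆ T) ∧
  (∀ X : Finset (Fin n), X ∉ A → ∃ S ∈ A, X ⊆ S ∨ S ⊆ X)

/-- every point lies in exactly `r` members of `A`. -/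
def IsReg (n : ℕ) (A : Finset (Finset (Fin n))) (r : ℕ) : Prop :=
  ∀ x : Fin n, (A.filter (fun S => x ∈ S)).card = r

/-- the least regularity of a regular maximal `(2,3)`-antichain on `{0,…,n-1}`. -/
noncomputable def rmin (n : ℕ) : ℕ :=
  sInf {r : ℕ | ∃ A : Finset (Finset (Fin n)), IsMax23 n A ∧ IsReg n A r}

/-- Graph form: `G` is a graph on `Fin n`, every edge lies in a triangle, and at every vertex
`degree - (number of triangles) = c`. -/
structure GraphForm (n : ℕ) (c : ℤ) (G : SimpleGraph (Fin n)) [DecidableRel G.Adj] : Prop where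
  tri : ∀ x y, G.Adj x y → ∃ z, G.Adj x z ∧ G.Adj y z
  reg : ∀ x, (G.degree x : ℤ) - (((G.cliqueFinset 3).filter (fun t => x ∈ t)).card : ℤ) = c

/-- A tight structure: every vertex `x` has `2m` out-neighbours `O x`, which are paired up by
`mu x`; the underlying graph `Adj` is triangle-free, the orientation is antisymmetric, and if both
ends of a mate pair (of any vertex `y`) are neighbours of `x`, then this pair is one of the mate
pairs of `x`. -/
structure Tight (V : Type) [Fintype V] [DecidableEq V] (m : ℕ) where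
  O : V → Finset V
  mu : V → V → V
  card_O : ∀ x, (O x).card = 2 * m
  mu_mem : ∀ x v, v ∈ O x → mu x v ∈ O x
  mu_ne : ∀ x v, v ∈ O x → mu x v ≠ v
  mu_mu : ∀ x v, v ∈ O x → mu x (mu x v) = v
  antisymm : ∀ x v, v ∈ O x → x ∉ O v
  triangle_free : ∀ x y z, (y ∈ O x ∨ x ∈ O y) → (z ∈ O y ∨ y ∈ O z) → (z ∈ O x ∨ x ∈ O z) →
    False
  key : ∀ y v x, v ∈ O y → (v ∈ O x ∨ x ∈ O v) → (mu y v ∈ O x ∨ x ∈ O (mu y v)) →
    v ∈ O x ∧ mu x v = mu y v

end Pool.Agent.Helper8.RM
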