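import Mathlib

/-!
A nonnegative stationary vector for the random walk `x → uniform element of O x`.
-/

namespace Pool.Agent.Helper8.RM

open Finset

/-- If every `O x` has `d > 0` elements then there is a nonzero nonnegative vector `p` with
`∑_{x : v ∈ O x} p x = d * p v` for all `v`. -/
theorem exists_stationary {V : Type} [Fintype V] [DecidableEq V] [Nonempty V] (O : V → Finset V)
    (d : ℕ) (hO : ∀ x, (O x).card = d) :
    ∃ p : V → ℝ, (∀ x, 0 ≤ p x) ∧ (0 < ∑ x, p x) ∧
      ∀ v, ∑ x, (if v ∈ O x then p x else 0) = d * p v := by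
  classical
  let A : Matrix V V ℝ := Matrix.of fun x v => if v ∈ O x then (1 : ℝ) else 0
  let M : Matrix V V ℝ := A - (d : ℝ) • (1 : Matrix V V ℝ)
  have hdet : M.det = 0 := by
    rw [← Matrix.exists_mulVec_eq_zero_iff]
    refine ⟨fun _ => 1, ?_, ?_⟩
    · intro h
      obtain ⟨x⟩ := (inferInstance : Nonempty V)
      have := congrFun h x
      simp at this
    · funext x
      simp only [M, A, Matrix.sub_mulVec, Matrix.smul_mulVec, Matrix.one_mulVec, Pi.sub_apply,
        Pi.smul_apply, Pi.zero_apply, smul_eq_mul, mul_one]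
      simp [Matrix.mulVec, dotProduct, hO x]
  obtain ⟨w, hw0, hw⟩ := Matrix.exists_vecMul_eq_zero_iff.2 hdet
  have hstat : ∀ v, ∑ x, (if v ∈ O x then w x else 0) = d * w v := by
    intro v
    have := congrFun hw v
    simp only [M, A, Matrix.vecMul_sub, Matrix.vecMul_smul, Matrix.vecMul_one, Pi.sub_apply,
      Pi.smul_apply, Pi.zero_apply, smul_eq_mul] at this
    have h2 : Matrix.vecMul w (Matrix.of fun x v => if v ∈ O x then (1 : ℝ) else 0) v
        = ∑ x, (if v ∈ O x then w x else 0) := by
      simp [Matrix.vecMul, dotProduct]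
    rw [h2] at this
    linarith
  refine ⟨fun x => |w x|, fun x => abs_nonneg _, ?_, ?_⟩
  · obtain ⟨x, hx⟩ := Function.ne_iff.1 hw0
    exact Finset.sum_pos' (fun i _ => abs_nonneg _) ⟨x, mem_univ _, abs_pos.2 hx⟩
  · have hle : ∀ v ∈ (univ : Finset V), (d : ℝ) * |w v| ≤ ∑ x, (if v ∈ O x then |w x| else 0) := by
      intro v _
      have h1 : (d : ℝ) * |w v| = |∑ x, (if v ∈ O x then w x else 0)| := by
        rw [hstat v, abs_mul, Nat.abs_cast]
      rw [h1]
      refine (Finset.abs_sum_le_sum_abs _ _).trans (le_of_eq ?_)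
      refine Finset.sum_congr rfl fun x _ => ?_
      split_ifs <;> simp
    have hsum : ∑ v, (d : ℝ) * |w v| = ∑ v, ∑ x, (if v ∈ O x then |w x| else 0) := by
      rw [Finset.sum_comm]
      refine Finset.sum_congr rfl fun x _ => ?_
      rw [← Finset.sum_filter, Finset.filter_mem_eq_inter, Finset.univ_inter, Finset.sum_const,
        hO x, nsmul_eq_mul]
    have := (Finset.sum_eq_sum_iff_of_le hle).1 hsum
    intro v
    exact (this v (mem_univ v)).symm

end Pool.Agent.Helper8.RM
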