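import Mathlib
import Pool.Agent.Helper8.RM.Defs
import Pool.Agent.Helper8.RM.Stat

/-!
`3 |V| ≥ 34 m` for every tight structure.
-/

namespace Pool.Agent.Helper8.RM

open Finset

namespace Tight

variable {V : Type} [Fintype V] [DecidableEq V] {m : ℕ} (T : Tight V m)

/-- the neighbourhood of `x`. -/
def N (x : V) : Finset V := univ.filter fun v => v ∈ T.O x ∨ x ∈ T.O v

/-- the in-neighbourhood of `x`. -/
def I (x : V) : Finset V := univ.filter fun v => x ∈ T.O v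

lemma mem_N {x v : V} : v ∈ T.N x ↔ (v ∈ T.O x ∨ x ∈ T.O v) := by simp [N]

lemma mem_I {x v : V} : v ∈ T.I x ↔ x ∈ T.O v := by simp [I]

lemma N_symm {x v : V} (h : v ∈ T.N x) : x ∈ T.N v := by
  rw [mem_N] at h ⊢
  exact h.symm

lemma tri {x y z : V} (h1 : y ∈ T.N x) (h2 : z ∈ T.N y) : z ∉ T.N x := by
  intro h3
  rw [mem_N] at h1 h2 h3
  exact T.triangle_free x y z h1 h2 h3

lemma key' {x y v : V} (h : v ∈ T.O y) (h1 : v ∈ T.N x) (h2 : T.mu y v ∈ T.N x) :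
    v ∈ T.O x ∧ T.mu x v = T.mu y v := by
  rw [mem_N] at h1 h2
  exact T.key y v x h h1 h2

/-- both ends of a mate pair cannot be adjacent to an end of an arc ... : if `y` is in the
neighbourhoods of `v` and `v ∈ O y` then no mate of `y` is a neighbour of `v`. -/
lemma mate_not_mem {u v y : V} (hy : y ∈ T.O u) (hv : v ∈ T.O y) : T.mu u y ∉ T.N v := by
  intro h
  have h1 : y ∈ T.N v := T.mem_N.2 (Or.inr hv)
  exact T.antisymm y v hv (T.key' hy h1 h).1

/-- common neighbours of a mate pair. -/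
def C (x v : V) : Finset V := T.N v ∩ T.N (T.mu x v)

/-- vertices not adjacent to `x`, `v` and the mate of `v`. -/
def L (x v : V) : Finset V := univ \ (T.N x ∪ (T.N v ∪ T.N (T.mu x v)))

lemma mem_C_out {x v y : V} (hv : v ∈ T.O x) (hy : y ∈ T.C x v) :
    v ∈ T.O y ∧ T.mu y v = T.mu x v ∧ T.mu x v ∈ T.O y := by
  rw [C, mem_inter] at hy
  have h := T.key' (x := y) hv (T.N_symm hy.1) (T.N_symm hy.2)
  refine ⟨h.1, h.2, ?_⟩
  rw [← h.2]
  exact T.mu_mem y v h.1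

lemma C_subset_I {x v : V} (hv : v ∈ T.O x) : T.C x v ⊆ T.I v := fun y hy =>
  T.mem_I.2 (T.mem_C_out hv hy).1

/-- the token alternative. -/
lemma token {x v y u : V} (hv : v ∈ T.O x) (hy : y ∈ T.C x v) (hu : y ∈ T.O u) :
    u ∈ T.L x v ∨ T.mu u y ∈ T.L x v := by
  have h1 := T.mem_C_out hv hy
  have hyN := (mem_inter.1 hy)
  have huy : y ∈ T.N u := T.mem_N.2 (Or.inl hu)
  have huv : u ∉ T.N v := T.tri hyN.1 (T.N_symm huy)
  have huz : u ∉ T.N (T.mu x v) := T.tri hyN.2 (T.N_symm huy)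
  have hbv : T.mu u y ∉ T.N v := T.mate_not_mem hu h1.1
  have hbz : T.mu u y ∉ T.N (T.mu x v) := T.mate_not_mem hu h1.2.2
  by_cases hx : u ∈ T.N x
  · right
    have hbu : T.mu u y ∈ T.N u := T.mem_N.2 (Or.inl (T.mu_mem u y hu))
    have hbx : T.mu u y ∉ T.N x := T.tri hx hbu
    simp [L, hbx, hbv, hbz]
  · left
    simp [L, hx, huv, huz]

lemma card_C_inter_O {x v u : V} (hv : v ∈ T.O x) : 2 * (T.C x v ∩ T.O u).card ≤ 2 * m := by
  have h1 : ((T.C x v ∩ T.O u).image (T.mu u)) ⊆ T.O u \ T.C x v := by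
    intro w hw
    obtain ⟨y, hy, rfl⟩ := mem_image.1 hw
    rw [mem_inter] at hy
    refine mem_sdiff.2 ⟨T.mu_mem u y hy.2, fun h => ?_⟩
    have h2 := T.mem_C_out hv hy.1
    exact T.mate_not_mem hy.2 h2.1 (mem_inter.1 h).1
  have h2 : ((T.C x v ∩ T.O u).image (T.mu u)).card = (T.C x v ∩ T.O u).card := by
    refine card_image_of_injOn fun a ha b hb hab => ?_
    have ha' := (mem_inter.1 (mem_coe.1 ha)).2
    have hb' := (mem_inter.1 (mem_coe.1 hb)).2
    have := congrArg (T.mu u) hab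
    rwa [T.mu_mu u a ha', T.mu_mu u b hb'] at this
  have h3 := card_le_card h1
  have h4 := card_sdiff_add_card_inter (T.O u) (T.C x v)
  rw [inter_comm, T.card_O u] at h4
  omega

variable {p : V → ℝ}

lemma sum_mu (f : V → ℝ) (x : V) : ∑ v ∈ T.O x, f (T.mu x v) = ∑ v ∈ T.O x, f v := by
  refine sum_nbij' (T.mu x) (T.mu x) (fun v hv => T.mu_mem x v hv) (fun v hv => T.mu_mem x v hv)
    (fun v hv => T.mu_mu x v hv) (fun v hv => T.mu_mu x v hv) (fun v _ => rfl)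

lemma sum_swap (g : V → V → ℝ) :
    ∑ x, ∑ v ∈ T.O x, g x v = ∑ v, ∑ x ∈ T.I v, g x v := by
  refine sum_comm' fun x y => ?_
  simp [mem_I]

lemma stat_I (hp : ∀ v, ∑ x, (if v ∈ T.O x then p x else 0) = (2 * m : ℕ) * p v) (v : V) :
    ∑ x ∈ T.I v, p x = (2 * m : ℕ) * p v := by
  rw [← hp v, I, sum_filter]

lemma N_eq (x : V) : T.N x = T.O x ∪ T.I x := by
  ext v
  simp [mem_N, mem_I]

lemma sum_N (x : V) : ∑ v ∈ T.N x, p v = ∑ v ∈ T.O x, p v + ∑ v ∈ T.I x, p v := by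
  rw [N_eq, sum_union]
  rw [disjoint_left]
  intro v hv hv'
  exact T.antisymm x v hv (T.mem_I.1 hv')

/-- `∑ p(x) p(N(x)) = 4 m ∑ p²`. -/
lemma sum_p_N (hp : ∀ v, ∑ x, (if v ∈ T.O x then p x else 0) = (2 * m : ℕ) * p v) :
    ∑ x, p x * ∑ v ∈ T.N x, p v = 4 * m * ∑ x, p x ^ 2 := by
  have h1 : ∀ x, p x * ∑ v ∈ T.N x, p v = ∑ v ∈ T.O x, p x * p v + 2 * m * p x ^ 2 := by
    intro x
    rw [T.sum_N, T.stat_I hp x, mul_add, mul_sum]
    push_cast
    ring
  have h2 : ∑ x, ∑ v ∈ T.O x, p x * p v = ∑ v, 2 * m * p v ^ 2 := by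
    rw [T.sum_swap (fun x v => p x * p v)]
    refine sum_congr rfl fun v _ => ?_
    rw [← sum_mul, T.stat_I hp v]
    push_cast
    ring
  simp_rw [h1]
  rw [sum_add_distrib, h2, ← mul_sum]
  ring

/-- a function of the end of the arc. -/
lemma sum_arc (hp : ∀ v, ∑ x, (if v ∈ T.O x then p x else 0) = (2 * m : ℕ) * p v) (f : V → ℝ) :
    ∑ x, ∑ v ∈ T.O x, p x * f v = 2 * m * ∑ v, p v * f v := by
  rw [T.sum_swap (fun x v => p x * f v), mul_sum]
  refine sum_congr rfl fun v _ => ?_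
  rw [← sum_mul, T.stat_I hp v]
  push_cast
  ring

/-- the decomposition of `V` seen from `x` and a mate pair of `x`. -/
lemma decomp {x v : V} (hv : v ∈ T.O x) :
    ∑ y, p y = ∑ y ∈ T.N x, p y + ∑ y ∈ T.N v, p y + ∑ y ∈ T.N (T.mu x v), p y
      - ∑ y ∈ T.C x v, p y + ∑ y ∈ T.L x v, p y := by
  have hd : Disjoint (T.N x) (T.N v ∪ T.N (T.mu x v)) := by
    rw [disjoint_left]
    intro y hy hy'
    have h1 : v ∈ T.N x := T.mem_N.2 (Or.inl hv)
    have h2 : T.mu x v ∈ T.N x := T.mem_N.2 (Or.inl (T.mu_mem x v hv))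
    rcases mem_union.1 hy' with h | h
    · exact T.tri h1 h hy
    · exact T.tri h2 h hy
  have h1 := sum_sdiff (f := p) (subset_univ (T.N x ∪ (T.N v ∪ T.N (T.mu x v))))
  have h2 := sum_union (f := p) hd
  have h3 := sum_union_inter (f := p) (s₁ := T.N v) (s₂ := T.N (T.mu x v))
  unfold L C
  linarith

lemma token_sum (hm : 0 < m) (hp0 : ∀ x, 0 ≤ p x)
    (hp : ∀ v, ∑ x, (if v ∈ T.O x then p x else 0) = (2 * m : ℕ) * p v) {x v : V}
    (hv : v ∈ T.O x) :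
    2 * ∑ y ∈ T.C x v, p y ≤ 3 * ∑ y ∈ T.L x v, p y := by
  have hm' : (0 : ℝ) < m := by exact_mod_cast hm
  -- total token mass
  have h0 : ∑ y ∈ T.C x v, ∑ u ∈ T.I y, p u = 2 * m * ∑ y ∈ T.C x v, p y := by
    rw [mul_sum]
    refine sum_congr rfl fun y _ => ?_
    rw [T.stat_I hp y]
    push_cast
    ring
  -- first kind
  have h1 : ∑ y ∈ T.C x v, ∑ u ∈ T.I y, (if u ∈ T.L x v then p u else 0)
      ≤ m * ∑ u ∈ T.L x v, p u := by
    have e1 : ∑ y ∈ T.C x v, ∑ u ∈ T.I y, (if u ∈ T.L x v then p u else 0)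
        = ∑ u ∈ T.L x v, ∑ y ∈ T.C x v ∩ T.O u, p u := by
      simp_rw [← sum_filter]
      refine sum_comm' fun y u => ?_
      simp only [mem_filter, mem_inter, mem_I]
      tauto
    rw [e1, mul_sum]
    refine sum_le_sum fun u _ => ?_
    rw [sum_const, nsmul_eq_mul]
    have := T.card_C_inter_O (u := u) hv
    have h2 : ((T.C x v ∩ T.O u).card : ℝ) ≤ m := by
      exact_mod_cast (by omega : (T.C x v ∩ T.O u).card ≤ m)
    exact mul_le_mul_of_nonneg_right h2 (hp0 u)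
  -- second kind
  have h2 : ∑ y ∈ T.C x v, ∑ u ∈ T.I y, (if T.mu u y ∈ T.L x v then p u else 0)
      ≤ 2 * m * ∑ w ∈ T.L x v, p w := by
    have e1 : ∑ w ∈ T.L x v, ∑ u ∈ T.I w, p u = 2 * m * ∑ w ∈ T.L x v, p w := by
      rw [mul_sum]
      refine sum_congr rfl fun w _ => ?_
      rw [T.stat_I hp w]
      push_cast
      ring
    rw [← e1]
    simp_rw [← sum_filter]
    rw [sum_sigma', sum_sigma']
    refine (le_of_eq ?_).trans (sum_le_sum_of_subset_of_nonneg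
      (s := ((T.C x v).sigma fun y => (T.I y).filter fun u => T.mu u y ∈ T.L x v).image
        (fun a => (⟨T.mu a.2 a.1, a.2⟩ : (_ : V) × V))) ?_ ?_)
    · rw [sum_image]
      intro a ha b hb hab
      obtain ⟨y, u⟩ := a
      obtain ⟨y', u'⟩ := b
      simp only [Sigma.mk.injEq, heq_eq_eq] at hab
      obtain ⟨h3, rfl⟩ := hab
      simp only [coe_sigma, Set.mem_sigma_iff, mem_coe, mem_filter, mem_I] at ha hb
      have := congrArg (T.mu u) h3
      rw [T.mu_mu u y ha.2.1, T.mu_mu u y' hb.2.1] at this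
      subst this
      rfl
    · intro a ha
      obtain ⟨⟨y, u⟩, hb, rfl⟩ := mem_image.1 ha
      simp only [mem_sigma, mem_filter, mem_I] at hb ⊢
      exact ⟨hb.2.2, T.mu_mem u y hb.2.1⟩
    · intro a _ _
      exact hp0 _
  -- combine
  have h3 : ∑ y ∈ T.C x v, ∑ u ∈ T.I y, p u
      ≤ ∑ y ∈ T.C x v, ∑ u ∈ T.I y, (if u ∈ T.L x v then p u else 0)
        + ∑ y ∈ T.C x v, ∑ u ∈ T.I y, (if T.mu u y ∈ T.L x v then p u else 0) := by
    rw [← sum_add_distrib]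
    refine sum_le_sum fun y hy => ?_
    rw [← sum_add_distrib]
    refine sum_le_sum fun u hu => ?_
    have hu0 := hp0 u
    rcases T.token hv hy (T.mem_I.1 hu) with h | h
    · rw [if_pos h]
      split_ifs <;> linarith
    · rw [if_pos h]
      split_ifs <;> linarith
  have h4 : (m : ℝ) * (2 * ∑ y ∈ T.C x v, p y) ≤ m * (3 * ∑ y ∈ T.L x v, p y) := by
    rw [h0] at h3
    linarith
  exact le_of_mul_le_mul_left h4 hm'

include T in
/-- **Main bound**: a tight structure with parameter `m` has at least `(34/3) m` vertices. -/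
theorem card_ge [Nonempty V] : 34 * m ≤ 3 * Fintype.card V := by
  rcases Nat.eq_zero_or_pos m with hm | hm
  · simp [hm]
  have hm' : (0 : ℝ) < m := by exact_mod_cast hm
  obtain ⟨p, hp0, hpos, hp⟩ := exists_stationary T.O (2 * m) T.card_O
  set P : ℝ := ∑ x, p x with hP
  set q : ℝ := ∑ x, p x ^ 2 with hq
  -- pointwise inequality
  have hpt : ∀ x, ∀ v ∈ T.O x, ∑ y ∈ T.N x, p y + ∑ y ∈ T.N v, p y + ∑ y ∈ T.N (T.mu x v), p y
      - (1 / 3) * ∑ y ∈ T.I v, p y ≤ P := by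
    intro x v hv
    have h1 := T.decomp (p := p) hv
    have h2 := T.token_sum hm hp0 hp hv
    have h3 : ∑ y ∈ T.C x v, p y ≤ ∑ y ∈ T.I v, p y :=
      sum_le_sum_of_subset_of_nonneg (T.C_subset_I hv) fun i _ _ => hp0 i
    linarith
  have hsum : ∑ x, ∑ v ∈ T.O x, p x * (∑ y ∈ T.N x, p y + ∑ y ∈ T.N v, p y
      + ∑ y ∈ T.N (T.mu x v), p y - (1 / 3) * ∑ y ∈ T.I v, p y)
      ≤ ∑ x, ∑ v ∈ T.O x, p x * P :=
    sum_le_sum fun x _ => sum_le_sum fun v hv => mul_le_mul_of_nonneg_left (hpt x v hv) (hp0 x)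
  have e1 : ∑ x, ∑ v ∈ T.O x, p x * P = 2 * m * P ^ 2 := by
    simp_rw [sum_const, T.card_O, nsmul_eq_mul]
    rw [← mul_sum, ← sum_mul, ← hP]
    push_cast
    ring
  have e2 : ∑ x, ∑ v ∈ T.O x, p x * (∑ y ∈ T.N x, p y + ∑ y ∈ T.N v, p y
      + ∑ y ∈ T.N (T.mu x v), p y - (1 / 3) * ∑ y ∈ T.I v, p y)
      = 2 * m * (4 * m * q) + 2 * m * (4 * m * q) + 2 * m * (4 * m * q)
        - (1 / 3) * (2 * m * (2 * m * q)) := by
    have a1 : ∑ x, ∑ v ∈ T.O x, p x * ∑ y ∈ T.N x, p y = 2 * m * (4 * m * q) := by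
      simp_rw [sum_const, T.card_O, nsmul_eq_mul]
      rw [← mul_sum, T.sum_p_N hp]
      push_cast
      ring
    have a2 : ∑ x, ∑ v ∈ T.O x, p x * ∑ y ∈ T.N v, p y = 2 * m * (4 * m * q) := by
      rw [T.sum_arc hp (fun v => ∑ y ∈ T.N v, p y), T.sum_p_N hp]
    have a3 : ∑ x, ∑ v ∈ T.O x, p x * ∑ y ∈ T.N (T.mu x v), p y = 2 * m * (4 * m * q) := by
      rw [← a2]
      refine sum_congr rfl fun x _ => ?_
      exact T.sum_mu (fun v => p x * ∑ y ∈ T.N v, p y) x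
    have a4 : ∑ x, ∑ v ∈ T.O x, p x * ∑ y ∈ T.I v, p y = 2 * m * (2 * m * q) := by
      rw [T.sum_arc hp (fun v => ∑ y ∈ T.I v, p y)]
      congr 1
      rw [hq, mul_sum]
      refine sum_congr rfl fun v _ => ?_
      rw [T.stat_I hp v]
      push_cast
      ring
    have a5 : ∀ x, ∀ v, p x * (∑ y ∈ T.N x, p y + ∑ y ∈ T.N v, p y
      + ∑ y ∈ T.N (T.mu x v), p y - (1 / 3) * ∑ y ∈ T.I v, p y)
      = p x * ∑ y ∈ T.N x, p y + p x * ∑ y ∈ T.N v, p y
      + p x * ∑ y ∈ T.N (T.mu x v), p y - (1 / 3) * (p x * ∑ y ∈ T.I v, p y) := by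
      intro x v
      ring
    simp_rw [a5, sum_sub_distrib, sum_add_distrib, ← mul_sum]
    simp_rw [← mul_sum] at a1 a2 a3 a4
    rw [a1, a2, a3, a4]
  rw [e1, e2] at hsum
  have hcs : P ^ 2 ≤ Fintype.card V * q := by
    have := sq_sum_le_card_mul_sum_sq (s := (univ : Finset V)) (f := p)
    simpa using this
  have hq0 : 0 < q := by
    by_contra hneg
    have h1 : P ^ 2 ≤ 0 := hcs.trans (mul_nonpos_of_nonneg_of_nonpos (by positivity)
      (not_lt.1 hneg))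
    have h2 : 0 < P ^ 2 := by positivity
    linarith
  have h5 : (34 : ℝ) * m ≤ 3 * Fintype.card V := by
    have h6 : 34 * (m : ℝ) * q ≤ 3 * P ^ 2 := by
      have : (m : ℝ) * (34 * m * q) ≤ m * (3 * P ^ 2) := by nlinarith
      exact le_of_mul_le_mul_left this hm'
    have h7 : 34 * (m : ℝ) * q ≤ 3 * Fintype.card V * q := by nlinarith
    exact le_of_mul_le_mul_right h7 hq0
  exact_mod_cast h5

end Tight

end Pool.Agent.Helper8.RM
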