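import Mathlib
import Pool.Agent.Helper8.RM.Defs

/-!
Cherry graphs: graphs whose triangles are exactly `x, v, mu x v`.
-/

namespace Pool.Agent.Helper8.RM

open Finset

/-- A cherry graph on `W`. `O x` are the out-neighbours of `x`, paired up by `mu x`; the pairs
`{v, mu x v}` are the `F`-edges. No triangles of type `BBB`, `BFF`, `FFF`, and a triangle of type
`BBF` is of the form `x, v, mu x v`. -/
structure Cherry (W : Type) [Fintype W] [DecidableEq W] where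
  O : W → Finset W
  mu : W → W → W
  mu_mem : ∀ x v, v ∈ O x → mu x v ∈ O x
  mu_ne : ∀ x v, v ∈ O x → mu x v ≠ v
  mu_mu : ∀ x v, v ∈ O x → mu x (mu x v) = v
  antisymm : ∀ x v, v ∈ O x → x ∉ O v
  bbb : ∀ x y z, (y ∈ O x ∨ x ∈ O y) → (z ∈ O y ∨ y ∈ O z) → (z ∈ O x ∨ x ∈ O z) → False
  key : ∀ y v x, v ∈ O y → (v ∈ O x ∨ x ∈ O v) → (mu y v ∈ O x ∨ x ∈ O (mu y v)) →
    v ∈ O x ∧ mu x v = mu y v
  bff : ∀ x y z, (y ∈ O x ∨ x ∈ O y) → (∃ u, x ∈ O u ∧ mu u x = z) →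
    (∃ u, y ∈ O u ∧ mu u y = z) → False
  fff : ∀ x y z, (∃ u, x ∈ O u ∧ mu u x = y) → (∃ u, y ∈ O u ∧ mu u y = z) →
    (∃ u, x ∈ O u ∧ mu u x = z) → False

/-- the `F`-neighbours of `x`. -/
noncomputable def Cherry.FN {W : Type} [Fintype W] [DecidableEq W] (T : Cherry W) (x : W) :
    Finset W := by
  classical
  exact univ.filter fun y => ∃ u, x ∈ T.O u ∧ T.mu u x = y

end Pool.Agent.Helper8.RM
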