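import Mathlib
import Pool.Agent.Helper8.RM.Defs
import Pool.Agent.Helper8.RM.Cherry

/-!
From a tight structure on `Fin k` with parameter `m` to cherry graphs on `k q + r` vertices all of
whose vertices have `|O w| / 2 + deg_F w = m (q - 6)`.
-/

namespace Pool.Agent.Helper8.RM.Blow

open Finset

variable {k m : ℕ} (T : Tight (Fin k) m) (q r : ℕ) [NeZero q]

/-- `F`-adjacency in the tight structure. -/
def FA (v z : Fin k) : Prop := ∃ y, v ∈ T.O y ∧ T.mu y v = z

variable {T} in
lemma FA_symm {v z : Fin k} (h : FA T v z) : FA T z v := by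
  obtain ⟨y, hy, rfl⟩ := h
  exact ⟨y, T.mu_mem y v hy, T.mu_mu y v hy⟩

variable {T} in
lemma FA_ne {v z : Fin k} (h : FA T v z) : v ≠ z := by
  obtain ⟨y, hy, rfl⟩ := h
  exact (T.mu_ne y v hy).symm

/-- the `F`-degree. -/
noncomputable def dF (x : Fin k) : ℕ := by
  classical
  exact (univ.filter (FA T x)).card

lemma dF_lt (x : Fin k) : dF T x < k := by
  classical
  have h : univ.filter (FA T x) ⊆ univ.erase x := by
    intro y hy
    rw [mem_erase]
    exact ⟨(FA_ne (mem_filter.1 hy).2).symm, mem_univ _⟩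
  have h1 := card_le_card h
  rw [card_erase_of_mem (mem_univ x), card_univ, Fintype.card_fin] at h1
  have h2 : 0 < k := Fin.pos x
  have h3 : dF T x = (univ.filter (FA T x)).card := by
    unfold dF
    congr
  omega

/-- the shift from `v` to its mate `z`. -/
def sh (v z : Fin k) : ZMod q := if v < z then 1 else -1

/-- the common coordinate of an `F`-edge. -/
def base (v z : Fin k) (j : ZMod q) : ZMod q := if v < z then j else j - 1

lemma sh_sh {v z : Fin k} (h : v ≠ z) (j : ZMod q) : j + sh q v z + sh q z v = j := by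
  unfold sh
  rcases lt_or_gt_of_ne h with h1 | h1
  · rw [if_pos h1, if_neg (not_lt.2 h1.le)]
    ring
  · rw [if_neg (not_lt.2 h1.le), if_pos h1]
    ring

lemma base_sh {v z : Fin k} (h : v ≠ z) (j : ZMod q) :
    base q z v (j + sh q v z) = base q v z j := by
  unfold base sh
  rcases lt_or_gt_of_ne h with h1 | h1
  · rw [if_pos h1, if_neg (not_lt.2 h1.le), if_pos h1]
    ring
  · rw [if_neg (not_lt.2 h1.le), if_pos h1, if_neg (not_lt.2 h1.le)]
    ring

/-- a chosen out-neighbour (if `m ≥ 1`). -/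
noncomputable def v0 (x : Fin k) : Fin k := by
  classical
  exact if h : (T.O x).Nonempty then h.choose else x

lemma v0_mem (hm : 1 ≤ m) (x : Fin k) : v0 T x ∈ T.O x := by
  have h : (T.O x).Nonempty := by
    rw [← card_pos, T.card_O]
    omega
  unfold v0
  rw [dif_pos h]
  exact h.choose_spec

/-- the number of differences used for the pair of `v` at the class `x`. -/
noncomputable def hh (x v : Fin k) : ℕ :=
  if v = v0 T x ∨ v = T.mu x (v0 T x) then q - 6 - dF T x else q - 6

lemma hh_le (x v : Fin k) : hh T q x v ≤ q - 6 := by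
  unfold hh
  split_ifs <;> omega

lemma hh_pos (hq : k + 7 ≤ q) (x v : Fin k) : 1 ≤ hh T q x v := by
  have := dF_lt T x
  unfold hh
  split_ifs <;> omega

lemma hh_mu (hm : 1 ≤ m) {x v : Fin k} (hv : v ∈ T.O x) :
    hh T q x (T.mu x v) = hh T q x v := by
  have h0 := v0_mem T hm x
  unfold hh
  have : (T.mu x v = v0 T x ∨ T.mu x v = T.mu x (v0 T x)) ↔
      (v = v0 T x ∨ v = T.mu x (v0 T x)) := by
    constructor
    · rintro (h | h)
      · right
        rw [← h, T.mu_mu x v hv]
      · left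
        have := congrArg (T.mu x) h
        rwa [T.mu_mu x v hv, T.mu_mu x _ h0] at this
    · rintro (h | h)
      · right
        rw [h]
      · left
        rw [h, T.mu_mu x _ h0]
  simp only [this]

/-- vertices of the big graph. -/
abbrev W (k q r : ℕ) : Type := (Fin k × ZMod q) ⊕ Fin r

/-- class of a vertex (sources belong to the class `x0`). -/
def cx (x0 : Fin k) : W k q r → Fin k
  | Sum.inl (x, _) => x
  | Sum.inr _ => x0

/-- coordinate of a vertex. -/
def ci : W k q r → ZMod q
  | Sum.inl (_, i) => i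
  | Sum.inr _ => 0

/-- number of differences. -/
noncomputable def hw (u : W k q r) (v : Fin k) : ℕ :=
  match u with
  | Sum.inl (x, _) => hh T q x v
  | Sum.inr _ => q - 6

lemma hw_le (u : W k q r) (v : Fin k) : hw T q r u v ≤ q - 6 := by
  rcases u with ⟨x, i⟩ | t
  · exact hh_le T q x v
  · exact le_rfl

/-- the arc condition. -/
def al (x0 : Fin k) (u : W k q r) (v : Fin k) (j : ZMod q) : Prop :=
  3 ≤ (base q v (T.mu (cx q r x0 u) v) j - ci q r u).val ∧
    (base q v (T.mu (cx q r x0 u) v) j - ci q r u).val < 3 + hw T q r u v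

/-- out-neighbours in the big graph. -/
noncomputable def bigO (x0 : Fin k) (u : W k q r) : Finset (W k q r) := by
  classical
  exact univ.filter fun w => ∃ v j, w = Sum.inl (v, j) ∧ v ∈ T.O (cx q r x0 u) ∧
    al T q r x0 u v j

lemma mem_bigO {x0 : Fin k} {u w : W k q r} : w ∈ bigO T q r x0 u ↔
    ∃ v j, w = Sum.inl (v, j) ∧ v ∈ T.O (cx q r x0 u) ∧ al T q r x0 u v j := by
  classical
  unfold bigO
  simp

lemma inl_mem_bigO {x0 : Fin k} {u : W k q r} {v : Fin k} {j : ZMod q} :
    (Sum.inl (v, j) : W k q r) ∈ bigO T q r x0 u ↔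
      v ∈ T.O (cx q r x0 u) ∧ al T q r x0 u v j := by
  rw [mem_bigO]
  constructor
  · rintro ⟨v', j', h, h1, h2⟩
    obtain ⟨rfl, rfl⟩ : v = v' ∧ j = j' := by simpa using h
    exact ⟨h1, h2⟩
  · rintro ⟨h1, h2⟩
    exact ⟨v, j, rfl, h1, h2⟩

/-- mates in the big graph. -/
def bigmu (x0 : Fin k) (u w : W k q r) : W k q r :=
  match w with
  | Sum.inl (v, j) =>
      Sum.inl (T.mu (cx q r x0 u) v, j + sh q v (T.mu (cx q r x0 u) v))
  | Sum.inr t => Sum.inr t

lemma al_mu (hm : 1 ≤ m) {x0 : Fin k} {u : W k q r} {v : Fin k} {j : ZMod q}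
    (hv : v ∈ T.O (cx q r x0 u)) (h : al T q r x0 u v j) :
    al T q r x0 u (T.mu (cx q r x0 u) v) (j + sh q v (T.mu (cx q r x0 u) v)) := by
  unfold al at h ⊢
  rw [T.mu_mu _ v hv, base_sh q (T.mu_ne _ v hv).symm]
  have : hw T q r u (T.mu (cx q r x0 u) v) = hw T q r u v := by
    rcases u with ⟨x, i⟩ | t
    · exact hh_mu T q hm hv
    · rfl
  rw [this]
  exact h

/-- every arc of the big graph projects to an arc of `T`. -/
lemma cx_mem {x0 : Fin k} {u w : W k q r} (h : w ∈ bigO T q r x0 u) :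
    cx q r x0 w ∈ T.O (cx q r x0 u) := by
  obtain ⟨v, j, rfl, h1, -⟩ := (mem_bigO T q r).1 h
  exact h1

/-- `F`-edges of the big graph. -/
lemma bigF {x0 : Fin k} {x z : W k q r} (h : ∃ u, x ∈ bigO T q r x0 u ∧
    bigmu T q r x0 u x = z) : ∃ v j w, x = Sum.inl (v, j) ∧ FA T v w ∧
      z = Sum.inl (w, j + sh q v w) := by
  obtain ⟨u, hu, rfl⟩ := h
  obtain ⟨v, j, rfl, h1, -⟩ := (mem_bigO T q r).1 hu
  exact ⟨v, j, T.mu (cx q r x0 u) v, rfl, ⟨_, h1, rfl⟩, rfl⟩

lemma bigF_conv (hq : k + 7 ≤ q) {x0 : Fin k} {v w : Fin k} (j : ZMod q) (h : FA T v w) :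
    ∃ u, (Sum.inl (v, j) : W k q r) ∈ bigO T q r x0 u ∧
      bigmu T q r x0 u (Sum.inl (v, j)) = Sum.inl (w, j + sh q v w) := by
  obtain ⟨y, hy, rfl⟩ := h
  refine ⟨Sum.inl (y, base q v (T.mu y v) j - 3), ?_, rfl⟩
  rw [inl_mem_bigO]
  refine ⟨hy, ?_⟩
  have h3 : ((3 : ℕ) : ZMod q).val = 3 := ZMod.val_cast_of_lt (by omega)
  have h4 : (base q v (T.mu y v) j - (base q v (T.mu y v) j - 3) : ZMod q) = ((3 : ℕ) : ZMod q) := by
    push_cast
    ring
  unfold al
  simp only [cx, ci]
  rw [h4, h3]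
  have := hh_pos T q hq y v
  exact ⟨le_rfl, by simp only [hw]; omega⟩

lemma val_int (a : ℤ) (h0 : 0 ≤ a) (h1 : a < q) : ((a : ℤ) : ZMod q).val = a.toNat := by
  lift a to ℕ using h0
  rw [Int.cast_natCast, ZMod.val_cast_of_lt (by exact_mod_cast h1)]
  simp

/-- differences `-2, 0, 2` are never used. -/
lemma not_al (hq : 7 ≤ q) {x0 : Fin k} {u : W k q r} {v : Fin k} {j : ZMod q}
    (h : al T q r x0 u v j) (hd : j - ci q r u = 0 ∨ j - ci q r u = 2 ∨ j - ci q r u = -2) :
    False := by
  obtain ⟨h1, h2⟩ := h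
  have h3 := hw_le T q r u v
  have hb : base q v (T.mu (cx q r x0 u) v) j - ci q r u = j - ci q r u ∨
      base q v (T.mu (cx q r x0 u) v) j - ci q r u = j - ci q r u - 1 := by
    unfold base
    split_ifs
    · left; rfl
    · right; ring
  have key : ∀ b : ZMod q, (b = 0 ∨ b = 1 ∨ b = 2 ∨ b = -1 ∨ b = -2 ∨ b = -3) →
      3 ≤ b.val → b.val < 3 + (q - 6) → False := by
    intro b hb h1 h2
    rcases hb with rfl | rfl | rfl | rfl | rfl | rfl
    · simp at h1
    · have : (1 : ZMod q) = ((1 : ℤ) : ZMod q) := by push_cast; ring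
      rw [this, val_int q 1 (by omega) (by omega)] at h1
      simp at h1
    · have : (2 : ZMod q) = ((2 : ℤ) : ZMod q) := by push_cast; ring
      rw [this, val_int q 2 (by omega) (by omega)] at h1
      simp at h1
    · have : (-1 : ZMod q) = (((q : ℤ) - 1 : ℤ) : ZMod q) := by push_cast; simp
      rw [this, val_int q _ (by omega) (by omega)] at h2
      omega
    · have : (-2 : ZMod q) = (((q : ℤ) - 2 : ℤ) : ZMod q) := by push_cast; simp
      rw [this, val_int q _ (by omega) (by omega)] at h2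
      omega
    · have : (-3 : ZMod q) = (((q : ℤ) - 3 : ℤ) : ZMod q) := by push_cast; simp
      rw [this, val_int q _ (by omega) (by omega)] at h2
      omega
  refine key _ ?_ h1 (by omega)
  rcases hb with hb | hb <;> rcases hd with hd | hd | hd <;> rw [hb, hd]
  · tauto
  · tauto
  · tauto
  · right; right; right; left; ring
  · right; left; ring
  · right; right; right; right; right; ring

lemma sh_cases (v z : Fin k) : sh q v z = 1 ∨ sh q v z = -1 := by
  unfold sh
  split_ifs <;> simp

/-- the big cherry graph. -/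
noncomputable def big (hm : 1 ≤ m) (hq : k + 7 ≤ q) (x0 : Fin k) : Cherry (W k q r) where
  O := bigO T q r x0
  mu := bigmu T q r x0
  mu_mem := by
    intro u w hw
    obtain ⟨v, j, rfl, h1, h2⟩ := (mem_bigO T q r).1 hw
    exact (inl_mem_bigO T q r).2 ⟨T.mu_mem _ v h1, al_mu T q r hm h1 h2⟩
  mu_ne := by
    intro u w hw h
    obtain ⟨v, j, rfl, h1, h2⟩ := (mem_bigO T q r).1 hw
    simp only [bigmu, Sum.inl.injEq, Prod.mk.injEq] at h
    exact T.mu_ne _ v h1 h.1
  mu_mu := by
    intro u w hw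
    obtain ⟨v, j, rfl, h1, h2⟩ := (mem_bigO T q r).1 hw
    simp only [bigmu, Sum.inl.injEq, Prod.mk.injEq]
    rw [T.mu_mu _ v h1]
    exact ⟨rfl, sh_sh q (T.mu_ne _ v h1).symm j⟩
  antisymm := fun u w h h' => T.antisymm _ _ (cx_mem T q r h) (cx_mem T q r h')
  bbb := by
    intro x y z h1 h2 h3
    exact T.triangle_free (cx q r x0 x) (cx q r x0 y) (cx q r x0 z)
      (h1.imp (cx_mem T q r) (cx_mem T q r)) (h2.imp (cx_mem T q r) (cx_mem T q r))
      (h3.imp (cx_mem T q r) (cx_mem T q r))
  key := by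
    intro y w x h1 h2 h3
    have h4 := T.key (cx q r x0 y) (cx q r x0 w) (cx q r x0 x) (cx_mem T q r h1)
      (h2.imp (cx_mem T q r) (cx_mem T q r))
    have h5 : cx q r x0 (bigmu T q r x0 y w) = T.mu (cx q r x0 y) (cx q r x0 w) := by
      obtain ⟨v, j, rfl, -, -⟩ := (mem_bigO T q r).1 h1
      rfl
    rw [← h5] at h4
    obtain ⟨h6, h7⟩ := h4 (h3.imp (cx_mem T q r) (cx_mem T q r))
    constructor
    · rcases h2 with h2 | h2
      · exact h2
      · exact absurd (cx_mem T q r h2) (T.antisymm _ _ h6)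
    · obtain ⟨v, j, rfl, -, -⟩ := (mem_bigO T q r).1 h1
      simp only [bigmu, cx] at h7 ⊢
      rw [h7]
  bff := by
    have aux : ∀ x y z : W k q r, y ∈ bigO T q r x0 x →
        (∃ u, x ∈ bigO T q r x0 u ∧ bigmu T q r x0 u x = z) →
        (∃ u, y ∈ bigO T q r x0 u ∧ bigmu T q r x0 u y = z) → False := by
      intro x y z h1 h2 h3
      obtain ⟨v, j, w, rfl, -, rfl⟩ := bigF T q r h2
      obtain ⟨v', j', w', rfl, -, h4⟩ := bigF T q r h3
      obtain ⟨rfl, h5⟩ : w = w' ∧ j + sh q v w = j' + sh q v' w' := by simpa using h4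
      refine not_al T q r (by omega) ((inl_mem_bigO T q r).1 h1).2 ?_
      have h6 : j' - ci q r (Sum.inl (v, j) : W k q r) = sh q v w - sh q v' w := by
        simp only [ci]
        linear_combination -h5
      rw [h6]
      rcases sh_cases q v w with a | a <;> rcases sh_cases q v' w with b | b <;> rw [a, b]
      · left; ring
      · right; left; ring
      · right; right; ring
      · left; ring
    rintro x y z (h1 | h1) h2 h3
    · exact aux x y z h1 h2 h3
    · exact aux y x z h1 h3 h2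
  fff := by
    intro x y z h1 h2 h3
    obtain ⟨v, j, w, rfl, -, rfl⟩ := bigF T q r h1
    obtain ⟨v', j', w', h4, -, rfl⟩ := bigF T q r h2
    obtain ⟨v'', j'', w'', h5, -, h6⟩ := bigF T q r h3
    obtain ⟨rfl, rfl⟩ : w = v' ∧ j + sh q v w = j' := by simpa using h4
    obtain ⟨rfl, rfl⟩ : v = v'' ∧ j = j'' := by simpa using h5
    obtain ⟨rfl, h7⟩ : w' = w'' ∧ j + sh q v w + sh q w w' = j + sh q v w'' := by
      simpa using h6
    have h8 : sh q v w + sh q w w' - sh q v w' = 0 := by linear_combination h7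
    have hne : ∀ a : ℤ, a ≠ 0 → |a| < q → ((a : ℤ) : ZMod q) ≠ 0 := by
      intro a ha hlt h
      rw [ZMod.intCast_zmod_eq_zero_iff_dvd] at h
      exact ha (Int.eq_zero_of_abs_lt_dvd h hlt)
    rcases sh_cases q v w with a | a <;> rcases sh_cases q w w' with b | b <;>
      rcases sh_cases q v w' with c | c <;> rw [a, b, c] at h8
    · exact hne 1 (by norm_num) (by norm_num; omega) (by push_cast; linear_combination h8)
    · exact hne 3 (by norm_num) (by norm_num; omega) (by push_cast; linear_combination h8)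
    · exact hne (-1) (by norm_num) (by norm_num; omega) (by push_cast; linear_combination h8)
    · exact hne 1 (by norm_num) (by norm_num; omega) (by push_cast; linear_combination h8)
    · exact hne (-1) (by norm_num) (by norm_num; omega) (by push_cast; linear_combination h8)
    · exact hne 1 (by norm_num) (by norm_num; omega) (by push_cast; linear_combination h8)
    · exact hne (-3) (by norm_num) (by norm_num; omega) (by push_cast; linear_combination h8)
    · exact hne (-1) (by norm_num) (by norm_num; omega) (by push_cast; linear_combination h8)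

end Pool.Agent.Helper8.RM.Blow
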