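import Mathlib
import Pool.Agent.Helper8.RM.Blow

/-!
Counting in the blow-up.
-/

namespace Pool.Agent.Helper8.RM.Blow

open Finset

variable {k m : ℕ} (T : Tight (Fin k) m) (q r : ℕ) [NeZero q]

lemma card_val (h : ℕ) (hh : 3 + h ≤ q) :
    (univ.filter fun b : ZMod q => 3 ≤ b.val ∧ b.val < 3 + h).card = h := by
  have h1 : (univ.filter fun b : ZMod q => 3 ≤ b.val ∧ b.val < 3 + h).card
      = (Finset.Ico 3 (3 + h)).card := by
    refine card_nbij' (fun b => b.val) (fun n => (n : ZMod q)) ?_ ?_ ?_ ?_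
    · intro b hb
      simp only [coe_filter, mem_univ, true_and, Set.mem_ofPred_eq] at hb
      simpa using hb
    · intro n hn
      simp only [coe_Ico, Set.mem_Ico] at hn
      simp only [coe_filter, mem_univ, true_and, Set.mem_ofPred_eq]
      rw [ZMod.val_cast_of_lt (by omega)]
      exact hn
    · intro b _
      exact ZMod.natCast_zmod_val b
    · intro n hn
      simp only [coe_Ico, Set.mem_Ico] at hn
      exact ZMod.val_cast_of_lt (by omega)
  rw [h1, Nat.card_Ico]
  omega

lemma card_base (v z : Fin k) (c : ZMod q) (h : ℕ) (hh : 3 + h ≤ q) :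
    (univ.filter fun j : ZMod q => 3 ≤ (base q v z j - c).val ∧ (base q v z j - c).val < 3 + h).card
      = h := by
  refine Eq.trans ?_ (card_val q h hh)
  by_cases hv : v < z
  · refine card_nbij' (fun j => j - c) (fun b => b + c) ?_ ?_ ?_ ?_
    · intro j hj
      simpa [base, hv] using hj
    · intro b hb
      simpa [base, hv] using hb
    · intro j _
      simp
    · intro b _
      simp
  · refine card_nbij' (fun j => j - 1 - c) (fun b => b + c + 1) ?_ ?_ ?_ ?_
    · intro j hj
      simpa [base, hv] using hj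
    · intro b hb
      simpa [base, hv] using hb
    · intro j _
      ring
    · intro b _
      ring

lemma card_bigO (hq : k + 7 ≤ q) (x0 : Fin k) (u : W k q r) :
    (bigO T q r x0 u).card = ∑ v ∈ T.O (cx q r x0 u), hw T q r u v := by
  classical
  have h1 : bigO T q r x0 u = ((T.O (cx q r x0 u)).sigma fun v => univ.filter fun j =>
      al T q r x0 u v j).image (fun a => (Sum.inl (a.1, a.2) : W k q r)) := by
    ext w
    rw [mem_bigO, mem_image]
    constructor
    · rintro ⟨v, j, rfl, h1, h2⟩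
      exact ⟨⟨v, j⟩, by simp [h1, h2], rfl⟩
    · rintro ⟨⟨v, j⟩, h, rfl⟩
      simp only [mem_sigma, mem_filter, mem_univ, true_and] at h
      exact ⟨v, j, rfl, h.1, h.2⟩
  rw [h1, card_image_of_injective, card_sigma]
  · refine sum_congr rfl fun v _ => ?_
    have h2 := hw_le T q r u v
    unfold al
    convert card_base q v (T.mu (cx q r x0 u) v) (ci q r u) (hw T q r u v) (by omega)
  · rintro ⟨v, j⟩ ⟨v', j'⟩ h
    simp only [Sum.inl.injEq, Prod.mk.injEq] at h
    obtain ⟨rfl, rfl⟩ := h
    rfl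

lemma sum_hh (hm : 1 ≤ m) (hq : k + 7 ≤ q) (x : Fin k) :
    ∑ v ∈ T.O x, hh T q x v + 2 * dF T x = 2 * (m * (q - 6)) := by
  classical
  have h0 := v0_mem T hm x
  have h1 := T.mu_mem x _ h0
  have hne := T.mu_ne x _ h0
  have hd := dF_lt T x
  have h2 : ∀ v ∈ T.O x, hh T q x v + (if v ∈ ({v0 T x, T.mu x (v0 T x)} : Finset (Fin k)) then
      dF T x else 0) = q - 6 := by
    intro v _
    unfold hh
    simp only [mem_insert, mem_singleton]
    split_ifs <;> omega
  have h3 : ∑ v ∈ T.O x, (hh T q x v + (if v ∈ ({v0 T x, T.mu x (v0 T x)} : Finset (Fin k)) then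
      dF T x else 0)) = 2 * m * (q - 6) := by
    rw [sum_congr rfl h2, sum_const, T.card_O, smul_eq_mul]
  rw [sum_add_distrib] at h3
  have h4 : ∑ v ∈ T.O x, (if v ∈ ({v0 T x, T.mu x (v0 T x)} : Finset (Fin k)) then
      dF T x else 0) = 2 * dF T x := by
    rw [← sum_filter, filter_mem_eq_inter]
    have h5 : T.O x ∩ ({v0 T x, T.mu x (v0 T x)} : Finset (Fin k))
        = {v0 T x, T.mu x (v0 T x)} := by
      rw [inter_eq_right]
      intro y hy
      rw [mem_insert, mem_singleton] at hy
      rcases hy with rfl | rfl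
      · exact h0
      · exact h1
    rw [h5, sum_const, card_pair hne.symm, smul_eq_mul]
  rw [h4] at h3
  rw [h3]
  ring

lemma card_FN_inl (hm : 1 ≤ m) (hq : k + 7 ≤ q) (x0 : Fin k) (x : Fin k) (i : ZMod q) :
    ((big T q r hm hq x0).FN (Sum.inl (x, i))).card = dF T x := by
  classical
  have h1 : (big T q r hm hq x0).FN (Sum.inl (x, i)) = (univ.filter (FA T x)).image
      (fun w => (Sum.inl (w, i + sh q x w) : W k q r)) := by
    ext z
    simp only [Cherry.FN, mem_filter, mem_univ, true_and, mem_image]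
    constructor
    · intro h
      obtain ⟨v, j, w, h2, h3, rfl⟩ := bigF T q r h
      obtain ⟨rfl, rfl⟩ : x = v ∧ i = j := by simpa using h2
      exact ⟨w, h3, rfl⟩
    · rintro ⟨w, hw, rfl⟩
      exact bigF_conv T q r hq i hw
  rw [h1, card_image_of_injOn]
  · unfold dF
    congr
  · intro a _ b _ h
    simp only [Sum.inl.injEq, Prod.mk.injEq] at h
    exact h.1

lemma card_FN_inr (hm : 1 ≤ m) (hq : k + 7 ≤ q) (x0 : Fin k) (t : Fin r) :
    ((big T q r hm hq x0).FN (Sum.inr t)).card = 0 := by
  classical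
  rw [card_eq_zero, eq_empty_iff_forall_notMem]
  intro z hz
  simp only [Cherry.FN, mem_filter, mem_univ, true_and] at hz
  obtain ⟨v, j, w, h2, -, -⟩ := bigF T q r hz
  simp at h2

/-- every vertex of the big cherry graph has `|O w| + 2 deg_F w = 2 m (q - 6)`. -/
theorem big_count (hm : 1 ≤ m) (hq : k + 7 ≤ q) (x0 : Fin k) (w : W k q r) :
    ((big T q r hm hq x0).O w).card + 2 * ((big T q r hm hq x0).FN w).card
      = 2 * (m * (q - 6)) := by
  have h1 : ((big T q r hm hq x0).O w).card = ∑ v ∈ T.O (cx q r x0 w), hw T q r w v :=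
    card_bigO T q r hq x0 w
  rw [h1]
  rcases w with ⟨x, i⟩ | t
  · rw [card_FN_inl]
    exact sum_hh T q hm hq x
  · rw [card_FN_inr]
    simp only [hw, sum_const, smul_eq_mul, T.card_O]
    ring

lemma card_W : Fintype.card (W k q r) = k * q + r := by
  simp [W, ZMod.card]

end Pool.Agent.Helper8.RM.Blow
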