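import Mathlib
import Pool.Agent.Helper8.RM.Cherry
import Pool.Agent.Helper66.RMP.Gen

/-!
Regular maximal `(2,3)`-antichains from cherry graphs.
-/

namespace Pool.Agent.Helper8.RM

open Finset Pool.Agent.Helper66.RMP

namespace Cherry

variable {W : Type} [Fintype W] [DecidableEq W] (T : Cherry W)

/-- adjacency by arcs. -/
def B (x y : W) : Prop := y ∈ T.O x ∨ x ∈ T.O y

/-- adjacency by mate pairs. -/
def F (x y : W) : Prop := ∃ u, x ∈ T.O u ∧ T.mu u x = y

/-- adjacency. -/
def R (x y : W) : Prop := T.B x y ∨ T.F x y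

variable {T}

lemma B_symm {x y : W} (h : T.B x y) : T.B y x := Or.symm h

lemma F_symm {x y : W} (h : T.F x y) : T.F y x := by
  obtain ⟨u, hu, rfl⟩ := h
  exact ⟨u, T.mu_mem u x hu, T.mu_mu u x hu⟩

lemma R_symm {x y : W} (h : T.R x y) : T.R y x := h.imp B_symm F_symm

lemma B_ne {x y : W} (h : T.B x y) : x ≠ y := by
  rintro rfl
  rcases h with h | h <;> exact T.antisymm x x h h

lemma F_ne {x y : W} (h : T.F x y) : x ≠ y := by
  obtain ⟨u, hu, rfl⟩ := h
  exact (T.mu_ne u x hu).symm

lemma R_ne {x y : W} (h : T.R x y) : x ≠ y := by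
  rcases h with h | h
  · exact B_ne h
  · exact F_ne h

lemma not_BF {x y : W} (h : T.B x y) (h' : T.F x y) : False := by
  obtain ⟨u, hu, rfl⟩ := h'
  exact T.bbb x (T.mu u x) u h (Or.inr (T.mu_mem u x hu)) (Or.inr hu)

/-- if `x` is `B`-adjacent to both ends of an `F`-edge then it is an apex. -/
lemma apex {x v z : W} (hF : T.F v z) (h1 : T.B x v) (h2 : T.B x z) :
    v ∈ T.O x ∧ T.mu x v = z := by
  obtain ⟨u, hu, rfl⟩ := hF
  exact T.key u v x hu h1 h2

lemma R_edge {x y : W} (h : T.R x y) : ∃ z, T.R x z ∧ T.R y z := by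
  have aux : ∀ x y : W, y ∈ T.O x → ∃ z, T.R x z ∧ T.R y z := fun x y h =>
    ⟨T.mu x y, Or.inl (Or.inl (T.mu_mem x y h)), Or.inr ⟨x, h, rfl⟩⟩
  rcases h with (h | h) | ⟨u, hu, rfl⟩
  · exact aux x y h
  · obtain ⟨z, h1, h2⟩ := aux y x h
    exact ⟨z, h2, h1⟩
  · exact ⟨u, Or.inl (Or.inr hu), Or.inl (Or.inr (T.mu_mem u x hu))⟩

/-- common neighbours of `w` and `a`, for `a ∈ O w`. -/
lemma third_out {w a b : W} (ha : a ∈ T.O w) (hwb : T.R w b) (hab : T.R a b) : b = T.mu w a := by
  have hwa : T.B w a := Or.inl ha
  rcases hwb with hwb | hwb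
  · rcases hab with hab | hab
    · exact (T.bbb w a b hwa hab hwb).elim
    · exact (apex hab hwa hwb).2.symm
  · rcases hab with hab | hab
    · -- `w b` is an `F` edge, `a` is adjacent to both: `a` is an apex
      have := (apex hwb (B_symm hwa) hab).1
      exact (T.antisymm w a ha this).elim
    · exact (T.bff w a b hwa hwb hab).elim

/-- common neighbours of `w` and `a`, for `w ∈ O a`. -/
lemma third_in {w a b : W} (ha : w ∈ T.O a) (hwb : T.R w b) (hab : T.R a b) : b = T.mu a w :=
  third_out ha hab hwb

/-- common neighbours of the ends of an `F`-edge. -/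
lemma third_F {w a b : W} (ha : T.F w a) (hwb : T.R w b) (hab : T.R a b) :
    w ∈ T.O b ∧ T.mu b w = a := by
  rcases hwb with hwb | hwb
  · rcases hab with hab | hab
    · exact apex ha (B_symm hwb) (B_symm hab)
    · exact (T.bff w b a hwb ha (F_symm hab)).elim
  · rcases hab with hab | hab
    · exact (T.bff a b w hab (F_symm ha) (F_symm hwb)).elim
    · exact (T.fff w a b ha hab hwb).elim

variable (T)

/-- ordered pairs `(a, b)` such that `w, a, b` is a triangle. -/
noncomputable def pairs (w : W) : Finset (W × W) := by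
  classical
  exact univ.filter fun p => T.R w p.1 ∧ T.R w p.2 ∧ T.R p.1 p.2

/-- in-neighbours. -/
def I (w : W) : Finset W := univ.filter fun a => w ∈ T.O a

lemma pairs_eq (w : W) : T.pairs w =
    (T.O w).image (fun a => (a, T.mu w a)) ∪ ((T.I w).image (fun a => (a, T.mu a w)) ∪
      (T.I w).image (fun b => (T.mu b w, b))) := by
  classical
  ext ⟨a, b⟩
  simp only [pairs, mem_filter, mem_univ, true_and, mem_union, mem_image, Prod.mk.injEq, I]
  constructor
  · rintro ⟨h1, h2, h3⟩
    rcases h1 with (h1 | h1) | h1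
    · left
      exact ⟨a, h1, rfl, (third_out h1 h2 h3).symm⟩
    · right; left
      exact ⟨a, h1, rfl, (third_in h1 h2 h3).symm⟩
    · right; right
      have h4 := third_F h1 h2 h3
      exact ⟨b, h4.1, h4.2, rfl⟩
  · rintro (⟨a', h, rfl, rfl⟩ | ⟨a', h, rfl, rfl⟩ | ⟨a', h, rfl, rfl⟩)
    · exact ⟨Or.inl (Or.inl h), Or.inl (Or.inl (T.mu_mem w _ h)), Or.inr ⟨w, h, rfl⟩⟩
    · exact ⟨Or.inl (Or.inr h), Or.inr ⟨_, h, rfl⟩, Or.inl (Or.inl (T.mu_mem _ w h))⟩
    · exact ⟨Or.inr ⟨_, h, rfl⟩, Or.inl (Or.inr h), Or.inl (Or.inr (T.mu_mem _ w h))⟩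

lemma card_pairs (w : W) : (T.pairs w).card = (T.O w).card + 2 * (T.I w).card := by
  classical
  rw [pairs_eq, card_union_of_disjoint, card_union_of_disjoint, card_image_of_injOn,
    card_image_of_injOn, card_image_of_injOn]
  · ring
  · intro a _ b _ h
    simp only [Prod.mk.injEq] at h
    exact h.2
  · intro a _ b _ h
    simp only [Prod.mk.injEq] at h
    exact h.1
  · intro a _ b _ h
    simp only [Prod.mk.injEq] at h
    exact h.1
  · rw [disjoint_left]
    rintro ⟨a, b⟩ h1 h2
    simp only [mem_image, Prod.mk.injEq, I, mem_filter, mem_univ, true_and] at h1 h2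
    obtain ⟨a', h3, rfl, rfl⟩ := h1
    obtain ⟨b', h4, h5, h6⟩ := h2
    -- `b' = mu a' w`, `a' = mu b' w`: `a'` is `B`-adjacent to `w` and `F`-adjacent to `w`
    exact not_BF (T := T) (x := w) (y := a') (Or.inr h3) ⟨b', h4, h5⟩
  · rw [disjoint_left]
    rintro ⟨a, b⟩ h1 h2
    simp only [mem_union, mem_image, Prod.mk.injEq, I, mem_filter, mem_univ, true_and] at h1 h2
    obtain ⟨a', h3, rfl, rfl⟩ := h1
    rcases h2 with ⟨c, h4, h5, h6⟩ | ⟨c, h4, h5, h6⟩
    · subst h5
      exact T.antisymm w c h3 h4
    · exact not_BF (T := T) (x := w) (y := a') (Or.inl h3) ⟨c, h4, h5⟩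

/-- triangles through `w`. -/
noncomputable def tris (w : W) : Finset (Finset W) := by
  classical
  exact univ.filter fun S => S.card = 3 ∧ Cl T.R S ∧ w ∈ S

lemma card_tris (w : W) : 2 * (T.tris w).card = (T.pairs w).card := by
  classical
  have hmap : ∀ p ∈ T.pairs w, ({w, p.1, p.2} : Finset W) ∈ T.tris w := by
    intro p hp
    simp only [pairs, mem_filter, mem_univ, true_and] at hp
    obtain ⟨h1, h2, h3⟩ := hp
    simp only [tris, mem_filter, mem_univ, true_and]
    refine ⟨?_, cl_triple (fun _ _ h => R_symm h) h1 h2 h3, by simp⟩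
    exact card_eq_three.2 ⟨w, p.1, p.2, R_ne h1, R_ne h2, R_ne h3, rfl⟩
  have hfib : ∀ S ∈ T.tris w, ((T.pairs w).filter fun p => ({w, p.1, p.2} : Finset W) = S).card
      = 2 := by
    intro S hS
    simp only [tris, mem_filter, mem_univ, true_and] at hS
    obtain ⟨h1, h2, h3⟩ := hS
    have h4 : (S.erase w).card = 2 := by rw [card_erase_of_mem h3, h1]
    obtain ⟨a, b, hab, hE⟩ := card_eq_two.1 h4
    have ha : a ∈ S.erase w := by rw [hE]; simp
    have hb : b ∈ S.erase w := by rw [hE]; simp
    rw [mem_erase] at ha hb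
    have hSe : S = {w, a, b} := by rw [← hE, insert_erase h3]
    have hRa : T.R w a := h2 w h3 a ha.2 ha.1.symm
    have hRb : T.R w b := h2 w h3 b hb.2 hb.1.symm
    have hRab : T.R a b := h2 a ha.2 b hb.2 hab
    have : (T.pairs w).filter (fun p => ({w, p.1, p.2} : Finset W) = S)
        = {(a, b), (b, a)} := by
      ext ⟨c, d⟩
      simp only [mem_filter, pairs, mem_univ, true_and, mem_insert, mem_singleton,
        Prod.mk.injEq]
      constructor
      · rintro ⟨⟨h5, h6, h7⟩, h8⟩
        have hc : c ∈ S.erase w := by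
          rw [mem_erase, ← h8]
          exact ⟨(R_ne h5).symm, by simp⟩
        have hd : d ∈ S.erase w := by
          rw [mem_erase, ← h8]
          exact ⟨(R_ne h6).symm, by simp⟩
        rw [hE, mem_insert, mem_singleton] at hc hd
        have hcd := R_ne h7
        rcases hc with rfl | rfl <;> rcases hd with rfl | rfl
        · exact absurd rfl hcd
        · left; exact ⟨rfl, rfl⟩
        · right; exact ⟨rfl, rfl⟩
        · exact absurd rfl hcd
      · rintro (⟨rfl, rfl⟩ | ⟨rfl, rfl⟩)
        · exact ⟨⟨hRa, hRb, hRab⟩, hSe.symm⟩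
        · refine ⟨⟨hRb, hRa, R_symm hRab⟩, ?_⟩
          rw [hSe]
          ext x
          simp only [mem_insert, mem_singleton]
          tauto
    rw [this, card_pair]
    simp only [ne_eq, Prod.mk.injEq, not_and]
    intro h
    exact absurd h hab
  rw [card_eq_sum_card_fiberwise hmap, sum_congr rfl hfib, sum_const, smul_eq_mul, mul_comm]

/-- neighbours in the graph. -/
lemma card_nbr (w : W) [DecidablePred fun y => T.R w y] :
    (univ.filter fun y => T.R w y).card = (T.O w).card + (T.I w).card + (T.FN w).card := by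
  classical
  have h1 : (univ.filter fun y => T.R w y) = (T.O w ∪ T.I w) ∪ T.FN w := by
    ext y
    rw [mem_filter, mem_union, mem_union]
    simp only [mem_filter, mem_univ, true_and, I, FN]
    exact Iff.rfl
  rw [h1, card_union_of_disjoint, card_union_of_disjoint]
  · rw [disjoint_left]
    intro y h2 h3
    simp only [I, mem_filter, mem_univ, true_and] at h3
    exact T.antisymm w y h2 h3
  · rw [disjoint_left]
    intro y h2 h3
    simp only [FN, mem_filter, mem_univ, true_and] at h3
    simp only [mem_union, I, mem_filter, mem_univ, true_and] at h2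
    exact not_BF (T := T) (x := w) (y := y) h2 h3

/-- Regular antichain from a cherry graph. -/
theorem antichain (hn2 : 2 ≤ Fintype.card W) (c : ℕ)
    (hc : ∀ w, (T.O w).card + 2 * (T.FN w).card = 2 * c) :
    ∃ A : Finset (Finset (Fin (Fintype.card W))), IsMax23 (Fintype.card W) A ∧
      ∃ r, IsReg (Fintype.card W) A r ∧ r + 1 + c = Fintype.card W := by
  classical
  have key : ∀ w : W, (univ.filter fun y => w ≠ y ∧ ¬ T.R w y).card + (T.tris w).card + 1 + c
      = Fintype.card W := by
    intro w
    have h1 := T.card_nbr w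
    have h2 := T.card_tris w
    rw [T.card_pairs] at h2
    have h3 : (univ.filter fun y => w ≠ y ∧ ¬ T.R w y).card + (univ.filter fun y => T.R w y).card
        + 1 = Fintype.card W := by
      have h4 : (univ.filter fun y => T.R w y) ⊆ univ.erase w := by
        intro y hy
        rw [mem_filter] at hy
        rw [mem_erase]
        exact ⟨(R_ne hy.2).symm, mem_univ _⟩
      have h5 : (univ.filter fun y => w ≠ y ∧ ¬ T.R w y) =
          (univ.erase w) \ (univ.filter fun y => T.R w y) := by
        ext y
        simp only [mem_filter, mem_univ, true_and, mem_sdiff, mem_erase, and_true]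
        constructor
        · rintro ⟨h6, h7⟩
          exact ⟨h6.symm, h7⟩
        · rintro ⟨h6, h7⟩
          exact ⟨Ne.symm h6, h7⟩
      rw [h5, card_sdiff_of_subset h4]
      have h6 := card_le_card h4
      rw [card_erase_of_mem (mem_univ w), card_univ] at h6 ⊢
      omega
    have h7 := hc w
    omega
  have hne : Nonempty W := Fintype.card_pos_iff.1 (by omega)
  obtain ⟨w0⟩ := hne
  set n := Fintype.card W with hn
  let e : W ≃ Fin n := Fintype.equivFin W
  let R' : Fin n → Fin n → Prop := fun x y => T.R (e.symm x) (e.symm y)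
  have hs : ∀ x y, R' x y → R' y x := fun x y h => R_symm h
  have hi : ∀ x y, R' x y → x ≠ y := by
    rintro x y h rfl
    exact R_ne h rfl
  · have he : ∀ x y, R' x y → ∃ z, R' x z ∧ R' y z := by
      intro x y h
      obtain ⟨z, h1, h2⟩ := R_edge h
      exact ⟨e z, by simpa [R'] using h1, by simpa [R'] using h2⟩
    refine ⟨antiOf R', isMax23_of_graph hs hi he hn2, n - 1 - c, ?_, ?_⟩
    · refine isReg_of_graph hs _ fun x => ?_
      have h1 := key (e.symm x)
      have h2 : (univ.filter fun y => x ≠ y ∧ ¬ R' x y).card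
          = (univ.filter fun y => e.symm x ≠ y ∧ ¬ T.R (e.symm x) y).card := by
        refine card_nbij' e.symm e ?_ ?_ ?_ ?_
        · intro y hy
          simpa [R'] using hy
        · intro y hy
          simp only [coe_filter, mem_univ, true_and, Set.mem_ofPred_eq, R'] at hy ⊢
          refine ⟨?_, by simpa using hy.2⟩
          rintro rfl
          simp at hy
        · intro y _
          simp
        · intro y _
          simp
      have h3 : (univ.filter fun S : Finset (Fin n) => S.card = 3 ∧ Cl R' S ∧ x ∈ S).card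
          = (T.tris (e.symm x)).card := by
        refine card_nbij' (fun S => S.map e.symm.toEmbedding) (fun S => S.map e.toEmbedding)
          ?_ ?_ ?_ ?_
        · intro S hS
          simp only [coe_filter, mem_univ, true_and, Set.mem_ofPred_eq] at hS
          simp only [tris, coe_filter, mem_univ, true_and, Set.mem_ofPred_eq, card_map]
          refine ⟨hS.1, ?_, ?_⟩
          · intro a ha b hb hab
            rw [mem_map] at ha hb
            obtain ⟨a', ha', rfl⟩ := ha
            obtain ⟨b', hb', rfl⟩ := hb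
            exact hS.2.1 a' ha' b' hb' (fun h => hab (by rw [h]))
          · rw [mem_map]
            exact ⟨x, hS.2.2, rfl⟩
        · intro S hS
          simp only [tris, coe_filter, mem_univ, true_and, Set.mem_ofPred_eq] at hS
          simp only [coe_filter, mem_univ, true_and, Set.mem_ofPred_eq, card_map]
          refine ⟨hS.1, ?_, ?_⟩
          · intro a ha b hb hab
            rw [mem_map] at ha hb
            obtain ⟨a', ha', rfl⟩ := ha
            obtain ⟨b', hb', rfl⟩ := hb
            have := hS.2.1 a' ha' b' hb' (fun h => hab (by rw [h]))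
            simpa [R'] using this
          · rw [mem_map]
            exact ⟨e.symm x, hS.2.2, by simp⟩
        · intro S _
          ext y
          simp
        · intro S _
          ext y
          simp
      rw [h2, h3]
      omega
    · have := key w0
      omega

end Cherry

end Pool.Agent.Helper8.RM
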