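import Mathlib
import Pool.Agent.Helper8.RM.BlowCount
import Pool.Agent.Helper8.RM.Count

/-!
Regular maximal `(2,3)`-antichains from tight structures.
-/

namespace Pool.Agent.Helper8.RM

open Finset

/-- From a tight structure with `k` vertices and parameter `m` we get a regular maximal
`(2,3)`-antichain on `k q + r` points with regularity `k q + r - 1 - m (q - 6)`. -/
theorem antichain_of_tight (k m q r : ℕ) (hk : 0 < k) (hm : 1 ≤ m) (hq : k + 7 ≤ q)
    (h : Nonempty (Tight (Fin k) m)) :
    ∃ A, IsMax23 (k * q + r) A ∧ IsReg (k * q + r) A (k * q + r - 1 - m * (q - 6)) ∧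
      m * (q - 6) + 1 ≤ k * q + r := by
  obtain ⟨T⟩ := h
  haveI : NeZero q := ⟨by omega⟩
  have hcard := Blow.card_W (k := k) q r
  have hkq : q ≤ k * q := Nat.le_mul_of_pos_left q hk
  obtain ⟨A, hA, s, hs, hs'⟩ := (Blow.big T q r hm hq ⟨0, hk⟩).antichain (by omega)
    (m * (q - 6)) (Blow.big_count T q r hm hq ⟨0, hk⟩)
  rw [hcard] at hs'
  have hs2 : k * q + r - 1 - m * (q - 6) = s := by omega
  rw [hs2]
  have hle : m * (q - 6) + 1 ≤ k * q + r := by omega
  generalize hN : Fintype.card (Blow.W k q r) = N at A hA hs hcard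
  subst hcard
  exact ⟨A, hA, hs, hle⟩

end Pool.Agent.Helper8.RM
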