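import Mathlib
import Pool.Agent.Helper8.RM.Core

/-!
`|V| ≥ (6 + √35) m` for every tight structure.
-/

namespace Pool.Agent.Helper8.RM

open Finset

namespace Tight

variable {V : Type} [Fintype V] [DecidableEq V] {m : ℕ} (T : Tight V m)

variable {p : V → ℝ}

/-- the vertices `y` with `v ∈ O y` whose mate of `v` is that of `x`. -/
lemma fiber_eq {x v : V} (hv : v ∈ T.O x) :
    (T.I v).filter (fun y => T.mu y v = T.mu x v) = T.C x v := by
  ext y
  rw [mem_filter, mem_I]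
  constructor
  · rintro ⟨h1, h2⟩
    rw [C, mem_inter]
    refine ⟨T.mem_N.2 (Or.inr h1), ?_⟩
    rw [← h2]
    exact T.mem_N.2 (Or.inr (T.mu_mem y v h1))
  · intro h
    have := T.mem_C_out hv h
    exact ⟨this.1, this.2.1⟩

/-- vertices adjacent to neither end of a mate pair. -/
def D (x v : V) : Finset V := univ \ (T.N v ∪ T.N (T.mu x v))

/-- the weight of the common neighbours of the mate pair that are not adjacent to `w`. -/
noncomputable def dd (p : V → ℝ) (x v w : V) : ℝ := ∑ y ∈ T.C x v \ T.N w, p y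

lemma token_mem_D {x v y u : V} (hv : v ∈ T.O x) (hy : y ∈ T.C x v) (hu : y ∈ T.O u) :
    u ∈ T.D x v ∧ T.mu u y ∈ T.D x v := by
  have h1 := T.mem_C_out hv hy
  have hyN := (mem_inter.1 hy)
  have huy : y ∈ T.N u := T.mem_N.2 (Or.inl hu)
  have huv : u ∉ T.N v := T.tri hyN.1 (T.N_symm huy)
  have huz : u ∉ T.N (T.mu x v) := T.tri hyN.2 (T.N_symm huy)
  have hbv : T.mu u y ∉ T.N v := T.mate_not_mem hu h1.1
  have hbz : T.mu u y ∉ T.N (T.mu x v) := T.mate_not_mem hu h1.2.2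
  constructor
  · simp [D, huv, huz]
  · simp [D, hbv, hbz]

lemma dd_nonneg (hp0 : ∀ x, 0 ≤ p x) (x v w : V) : 0 ≤ T.dd p x v w :=
  sum_nonneg fun y _ => hp0 y

lemma dd_add (x v w : V) : T.dd p x v w + ∑ y ∈ T.C x v ∩ T.N w, p y = ∑ y ∈ T.C x v, p y := by
  rw [dd, add_comm]
  exact sum_inter_add_sum_sdiff _ _ _

/-- `d_u + d_{u'} ≥ c` for adjacent `u`, `u'`. -/
lemma dd_edge (hp0 : ∀ x, 0 ≤ p x) {x v u w : V} (h : w ∈ T.N u) :
    ∑ y ∈ T.C x v, p y ≤ T.dd p x v u + T.dd p x v w := by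
  have h1 := T.dd_add (p := p) x v u
  have h2 : ∑ y ∈ T.C x v ∩ T.N u, p y ≤ T.dd p x v w := by
    refine sum_le_sum_of_subset_of_nonneg ?_ fun i _ _ => hp0 i
    intro y hy
    rw [mem_inter] at hy
    refine mem_sdiff.2 ⟨hy.1, fun h3 => ?_⟩
    exact T.tri h h3 hy.2
  linarith

lemma token_split {c d e : ℝ} (h : c ≤ d + e) :
    c / 2 ≤ min d (c / 2) + max (e - c / 2) 0 := by
  rcases le_total (c / 2) d with h1 | h1
  · rw [min_eq_right h1]
    have := le_max_right (e - c / 2) 0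
    linarith
  · rw [min_eq_left h1]
    have := le_max_left (e - c / 2) 0
    linarith

/-- **The inequality at a mate pair.** -/
lemma pair_ineq (hm : 0 < m) (hp0 : ∀ x, 0 ≤ p x)
    (hp : ∀ v, ∑ x, (if v ∈ T.O x then p x else 0) = (2 * m : ℕ) * p v) {x v : V}
    (hv : v ∈ T.O x) :
    ∑ y ∈ T.C x v, p y * min (∑ y' ∈ T.C x v, p y') (2 * m * p y)
      ≤ ∑ w ∈ T.D x v, p w * T.dd p x v w := by
  have hm' : (0 : ℝ) < m := by exact_mod_cast hm
  set c : ℝ := ∑ y' ∈ T.C x v, p y' with hc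
  have hc0 : 0 ≤ c := sum_nonneg fun y _ => hp0 y
  have hR : 0 ≤ ∑ w ∈ T.D x v, p w * T.dd p x v w :=
    sum_nonneg fun w _ => mul_nonneg (hp0 w) (T.dd_nonneg hp0 x v w)
  rcases eq_or_lt_of_le hc0 with hc1 | hc1
  · refine le_trans ?_ hR
    refine sum_nonpos fun y _ => ?_
    rw [← hc1]
    exact mul_nonpos_of_nonneg_of_nonpos (hp0 y) (min_le_left _ _)
  set R : V → ℝ := fun y => min c (2 * m * p y) with hRdef
  have hR0 : ∀ y, 0 ≤ R y := fun y => le_min hc0 (by have := hp0 y; positivity)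
  set A : V → ℝ := fun w => min (T.dd p x v w) (c / 2) with hA
  set B : V → ℝ := fun w => max (T.dd p x v w - c / 2) 0 with hB
  have hA0 : ∀ w, 0 ≤ A w := fun w => le_min (T.dd_nonneg hp0 x v w) (by positivity)
  have hB0 : ∀ w, 0 ≤ B w := fun w => le_max_right _ _
  -- total
  have h0 : ∑ y ∈ T.C x v, ∑ u ∈ T.I y, p u * R y * (c / 2)
      = m * c * ∑ y ∈ T.C x v, p y * R y := by
    rw [mul_sum]
    refine sum_congr rfl fun y _ => ?_
    rw [← sum_mul, ← sum_mul, T.stat_I hp y]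
    push_cast
    ring
  -- first kind
  have h1 : ∑ y ∈ T.C x v, ∑ u ∈ T.I y, p u * R y * A u
      ≤ ∑ w ∈ T.D x v, p w * A w * ∑ y ∈ T.C x v ∩ T.O w, R y := by
    have e1 : ∑ y ∈ T.C x v, ∑ u ∈ T.I y, p u * R y * A u
        = ∑ w ∈ T.D x v, ∑ y ∈ T.C x v ∩ T.O w, p w * R y * A w := by
      refine sum_comm' fun y u => ?_
      simp only [mem_inter, mem_I]
      constructor
      · rintro ⟨h1, h2⟩
        exact ⟨⟨h1, h2⟩, (T.token_mem_D hv h1 h2).1⟩
      · rintro ⟨⟨h1, h2⟩, _⟩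
        exact ⟨h1, h2⟩
    rw [e1]
    refine le_of_eq (sum_congr rfl fun w _ => ?_)
    rw [mul_sum]
    refine sum_congr rfl fun y _ => ?_
    ring
  -- second kind
  have h2 : ∑ y ∈ T.C x v, ∑ u ∈ T.I y, p u * R y * B (T.mu u y)
      ≤ 2 * m * c * ∑ w ∈ T.D x v, p w * B w := by
    have e1 : ∑ w ∈ T.D x v, ∑ u ∈ T.I w, p u * c * B w
        = 2 * m * c * ∑ w ∈ T.D x v, p w * B w := by
      rw [mul_sum]
      refine sum_congr rfl fun w _ => ?_
      rw [← sum_mul, ← sum_mul, T.stat_I hp w]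
      push_cast
      ring
    rw [← e1]
    have e2 : ∑ y ∈ T.C x v, ∑ u ∈ T.I y, p u * R y * B (T.mu u y)
        ≤ ∑ y ∈ T.C x v, ∑ u ∈ T.I y, p u * c * B (T.mu u y) := by
      refine sum_le_sum fun y _ => sum_le_sum fun u _ => ?_
      exact mul_le_mul_of_nonneg_right (mul_le_mul_of_nonneg_left (min_le_left _ _) (hp0 u))
        (hB0 _)
    refine e2.trans ?_
    rw [sum_sigma', sum_sigma']
    refine (le_of_eq ?_).trans (sum_le_sum_of_subset_of_nonneg
      (s := ((T.C x v).sigma fun y => T.I y).image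
        (fun a => (⟨T.mu a.2 a.1, a.2⟩ : (_ : V) × V))) ?_ ?_)
    · rw [sum_image]
      intro a ha b hb hab
      obtain ⟨y, u⟩ := a
      obtain ⟨y', u'⟩ := b
      simp only [Sigma.mk.injEq, heq_eq_eq] at hab
      obtain ⟨h3, rfl⟩ := hab
      simp only [coe_sigma, Set.mem_sigma_iff, mem_coe, mem_I] at ha hb
      have := congrArg (T.mu u) h3
      rw [T.mu_mu u y ha.2, T.mu_mu u y' hb.2] at this
      subst this
      rfl
    · intro a ha
      obtain ⟨⟨y, u⟩, hb, rfl⟩ := mem_image.1 ha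
      simp only [mem_sigma, mem_I] at hb ⊢
      exact ⟨(T.token_mem_D hv hb.1 hb.2).2, T.mu_mem u y hb.2⟩
    · intro a _ _
      exact mul_nonneg (mul_nonneg (hp0 _) hc0) (hB0 _)
  -- combine
  have h3 : ∑ y ∈ T.C x v, ∑ u ∈ T.I y, p u * R y * (c / 2)
      ≤ ∑ y ∈ T.C x v, ∑ u ∈ T.I y, p u * R y * A u
        + ∑ y ∈ T.C x v, ∑ u ∈ T.I y, p u * R y * B (T.mu u y) := by
    rw [← sum_add_distrib]
    refine sum_le_sum fun y hy => ?_
    rw [← sum_add_distrib]
    refine sum_le_sum fun u hu => ?_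
    rw [← mul_add]
    refine mul_le_mul_of_nonneg_left ?_ (mul_nonneg (hp0 u) (hR0 y))
    refine token_split ?_
    exact T.dd_edge hp0 (T.mem_N.2 (Or.inl (T.mu_mem u y (T.mem_I.1 hu))))
  -- load at `w`
  have h4 : ∀ w, (∑ y ∈ T.C x v ∩ T.O w, R y) * A w + 2 * m * c * B w
      ≤ m * c * T.dd p x v w := by
    intro w
    have hd0 := T.dd_nonneg hp0 x v w
    have b1 : ∑ y ∈ T.C x v ∩ T.O w, R y ≤ m * c := by
      refine (sum_le_card_nsmul _ _ c fun y _ => min_le_left _ _).trans ?_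
      rw [nsmul_eq_mul]
      have := T.card_C_inter_O (u := w) hv
      have h2 : ((T.C x v ∩ T.O w).card : ℝ) ≤ m := by
        exact_mod_cast (by omega : (T.C x v ∩ T.O w).card ≤ m)
      exact mul_le_mul_of_nonneg_right h2 hc0
    have b2 : ∑ y ∈ T.C x v ∩ T.O w, R y ≤ 2 * m * (c - T.dd p x v w) := by
      have e1 : ∑ y ∈ T.C x v ∩ T.O w, R y ≤ ∑ y ∈ T.C x v ∩ T.O w, 2 * m * p y :=
        sum_le_sum fun y _ => min_le_right _ _
      have e2 : ∑ y ∈ T.C x v ∩ T.O w, 2 * m * p y ≤ ∑ y ∈ T.C x v ∩ T.N w, 2 * m * p y := by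
        refine sum_le_sum_of_subset_of_nonneg ?_ fun i _ _ => by have := hp0 i; positivity
        intro y hy
        rw [mem_inter] at hy ⊢
        exact ⟨hy.1, T.mem_N.2 (Or.inl hy.2)⟩
      have e3 := T.dd_add (p := p) x v w
      have e4 : ∑ y ∈ T.C x v ∩ T.N w, 2 * m * p y = 2 * m * (c - T.dd p x v w) := by
        rw [← mul_sum, hc, ← e3]
        ring
      linarith
    rcases le_total (T.dd p x v w) (c / 2) with h5 | h5
    · have a1 : A w = T.dd p x v w := min_eq_left h5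
      have a2 : B w = 0 := max_eq_right (by linarith)
      rw [a1, a2]
      nlinarith [mul_le_mul_of_nonneg_right b1 hd0]
    · have a1 : A w = c / 2 := min_eq_right h5
      have a2 : B w = T.dd p x v w - c / 2 := max_eq_left (by linarith)
      rw [a1, a2]
      nlinarith [mul_le_mul_of_nonneg_right b2 hc0]
  have h6 : m * c * ∑ y ∈ T.C x v, p y * R y ≤ m * c * ∑ w ∈ T.D x v, p w * T.dd p x v w := by
    rw [← h0]
    have h7 : ∑ w ∈ T.D x v, p w * A w * ∑ y ∈ T.C x v ∩ T.O w, R y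
        + 2 * m * c * ∑ w ∈ T.D x v, p w * B w ≤ m * c * ∑ w ∈ T.D x v, p w * T.dd p x v w := by
      rw [mul_sum (T.D x v), mul_sum (T.D x v), ← sum_add_distrib]
      refine sum_le_sum fun w _ => ?_
      have := mul_le_mul_of_nonneg_left (h4 w) (hp0 w)
      linarith
    linarith
  exact le_of_mul_le_mul_left h6 (by positivity)

/-- the right side of `pair_ineq` is the weighted number of non-neighbours. -/
lemma sum_D_eq {x v : V} (hv : v ∈ T.O x) :
    ∑ w ∈ T.D x v, p w * T.dd p x v w = ∑ y ∈ T.C x v, p y * ∑ w ∈ T.L y v, p w := by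
  have e1 : ∀ w, p w * T.dd p x v w = ∑ y ∈ T.C x v \ T.N w, p y * p w := by
    intro w
    rw [dd, mul_sum]
    exact sum_congr rfl fun y _ => by ring
  simp_rw [e1, mul_sum]
  refine sum_comm' fun w y => ?_
  simp only [mem_sdiff, D, L, mem_univ, true_and, mem_union, not_or]
  constructor
  · rintro ⟨⟨h1, h2⟩, h3, h4⟩
    refine ⟨⟨fun h => h4 (T.N_symm h), h1, ?_⟩, h3⟩
    rw [(T.mem_C_out hv h3).2.1]
    exact h2
  · rintro ⟨⟨h1, h2, h3⟩, h4⟩
    rw [(T.mem_C_out hv h4).2.1] at h3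
    exact ⟨⟨h2, h3⟩, h4, fun h => h1 (T.N_symm h)⟩

/-- the inequality summed over the in-neighbours of `v`. -/
lemma in_ineq (hm : 0 < m) (hp0 : ∀ x, 0 ≤ p x)
    (hp : ∀ v, ∑ x, (if v ∈ T.O x then p x else 0) = (2 * m : ℕ) * p v) (v : V) :
    ∑ x ∈ T.I v, p x * min (∑ y ∈ T.C x v, p y) (2 * m * p x)
      ≤ ∑ x ∈ T.I v, p x * ∑ w ∈ T.L x v, p w := by
  rw [← sum_fiberwise (T.I v) (fun x => T.mu x v)
    (fun x => p x * min (∑ y ∈ T.C x v, p y) (2 * m * p x)),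
    ← sum_fiberwise (T.I v) (fun x => T.mu x v) (fun x => p x * ∑ w ∈ T.L x v, p w)]
  refine sum_le_sum fun z _ => ?_
  rcases ((T.I v).filter fun x => T.mu x v = z).eq_empty_or_nonempty with h | ⟨x, hx⟩
  · rw [h]
    simp
  · rw [mem_filter, mem_I] at hx
    obtain ⟨hv, rfl⟩ := hx
    rw [T.fiber_eq hv, ← T.sum_D_eq hv]
    refine (le_of_eq ?_).trans (T.pair_ineq hm hp0 hp hv)
    refine sum_congr rfl fun y hy => ?_
    have : T.C y v = T.C x v := by rw [C, C, (T.mem_C_out hv hy).2.1]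
    rw [this]

/-- summed form. -/
lemma sum_ineq (hm : 0 < m) (hp0 : ∀ x, 0 ≤ p x)
    (hp : ∀ v, ∑ x, (if v ∈ T.O x then p x else 0) = (2 * m : ℕ) * p v) :
    12 * m * ∑ x, p x ^ 2 ≤ (∑ x, p x) ^ 2 + ∑ x, ∑ v ∈ T.O x, p x * max (p v - p x) 0 := by
  have hm' : (0 : ℝ) < m := by exact_mod_cast hm
  set P : ℝ := ∑ x, p x with hP
  set q : ℝ := ∑ x, p x ^ 2 with hq
  have e0 : ∑ x, ∑ v ∈ T.O x, p x * min (∑ y ∈ T.C x v, p y) (2 * m * p x)
      ≤ ∑ x, ∑ v ∈ T.O x, p x * ∑ w ∈ T.L x v, p w := by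
    rw [T.sum_swap (fun x v => p x * min (∑ y ∈ T.C x v, p y) (2 * m * p x)),
      T.sum_swap (fun x v => p x * ∑ w ∈ T.L x v, p w)]
    exact sum_le_sum fun v _ => T.in_ineq hm hp0 hp v
  have e1 : ∑ x, ∑ v ∈ T.O x, p x * P = 2 * m * P ^ 2 := by
    simp_rw [sum_const, T.card_O, nsmul_eq_mul]
    rw [← mul_sum, ← sum_mul, ← hP]
    push_cast
    ring
  have a1 : ∑ x, ∑ v ∈ T.O x, p x * ∑ y ∈ T.N x, p y = 2 * m * (4 * m * q) := by
    simp_rw [sum_const, T.card_O, nsmul_eq_mul]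
    rw [← mul_sum, T.sum_p_N hp]
    push_cast
    ring
  have a2 : ∑ x, ∑ v ∈ T.O x, p x * ∑ y ∈ T.N v, p y = 2 * m * (4 * m * q) := by
    rw [T.sum_arc hp (fun v => ∑ y ∈ T.N v, p y), T.sum_p_N hp]
  have a3 : ∑ x, ∑ v ∈ T.O x, p x * ∑ y ∈ T.N (T.mu x v), p y = 2 * m * (4 * m * q) := by
    rw [← a2]
    refine sum_congr rfl fun x _ => ?_
    exact T.sum_mu (fun v => p x * ∑ y ∈ T.N v, p y) x
  -- the decomposition, summed
  have e2 : ∑ x, ∑ v ∈ T.O x, p x * P = ∑ x, ∑ v ∈ T.O x, p x * ∑ y ∈ T.N x, p y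
      + ∑ x, ∑ v ∈ T.O x, p x * ∑ y ∈ T.N v, p y
      + ∑ x, ∑ v ∈ T.O x, p x * ∑ y ∈ T.N (T.mu x v), p y
      - ∑ x, ∑ v ∈ T.O x, p x * ∑ y ∈ T.C x v, p y
      + ∑ x, ∑ v ∈ T.O x, p x * ∑ w ∈ T.L x v, p w := by
    rw [← sum_add_distrib, ← sum_add_distrib, ← sum_sub_distrib, ← sum_add_distrib]
    refine sum_congr rfl fun x _ => ?_
    rw [← sum_add_distrib, ← sum_add_distrib, ← sum_sub_distrib, ← sum_add_distrib]
    refine sum_congr rfl fun v hv => ?_
    rw [hP, T.decomp (p := p) hv]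
    ring
  have e3 : ∑ x, ∑ v ∈ T.O x, p x * ∑ y ∈ T.C x v, p y
      ≤ ∑ x, ∑ v ∈ T.O x, p x * min (∑ y ∈ T.C x v, p y) (2 * m * p x)
        + 2 * m * ∑ x, ∑ v ∈ T.O x, p x * max (p v - p x) 0 := by
    rw [mul_sum, ← sum_add_distrib]
    refine sum_le_sum fun x _ => ?_
    rw [mul_sum, ← sum_add_distrib]
    refine sum_le_sum fun v hv => ?_
    have h3 : ∑ y ∈ T.C x v, p y ≤ 2 * m * p v := by
      have : ∑ y ∈ T.C x v, p y ≤ ∑ y ∈ T.I v, p y :=
        sum_le_sum_of_subset_of_nonneg (T.C_subset_I hv) fun i _ _ => hp0 i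
      rw [T.stat_I hp v] at this
      push_cast at this
      exact this
    have h4 : ∑ y ∈ T.C x v, p y ≤ min (∑ y ∈ T.C x v, p y) (2 * m * p x)
        + 2 * m * max (p v - p x) 0 := by
      have h5 : 0 ≤ max (p v - p x) 0 := le_max_right _ _
      have h6 : p v - p x ≤ max (p v - p x) 0 := le_max_left _ _
      rcases le_total (∑ y ∈ T.C x v, p y) (2 * m * p x) with h7 | h7
      · rw [min_eq_left h7]
        have : 0 ≤ 2 * m * max (p v - p x) 0 := by positivity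
        linarith
      · rw [min_eq_right h7]
        nlinarith
    have h5 := mul_le_mul_of_nonneg_left h4 (hp0 x)
    linarith
  have h7 : (2 * m : ℝ) * (12 * m * q)
      ≤ 2 * m * (P ^ 2 + ∑ x, ∑ v ∈ T.O x, p x * max (p v - p x) 0) := by
    rw [e1, a1, a2, a3] at e2
    linarith
  exact le_of_mul_le_mul_left h7 (by positivity)

/-- the positive parts along the arcs. -/
lemma sum_pos_part (hp0 : ∀ x, 0 ≤ p x)
    (hp : ∀ v, ∑ x, (if v ∈ T.O x then p x else 0) = (2 * m : ℕ) * p v) (a : ℝ) :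
    ∑ x, ∑ v ∈ T.O x, p x * max (p v - p x) 0 ≤ 2 * m * ∑ x, p x * |p x - a| := by
  have h1 : ∑ x, ∑ v ∈ T.O x, p x * max (p v - p x) 0
      ≤ ∑ x, ∑ v ∈ T.O x, p x * max (p v - a) 0 + ∑ x, ∑ v ∈ T.O x, p x * max (a - p x) 0 := by
    rw [← sum_add_distrib]
    refine sum_le_sum fun x _ => ?_
    rw [← sum_add_distrib]
    refine sum_le_sum fun v _ => ?_
    rw [← mul_add]
    refine mul_le_mul_of_nonneg_left ?_ (hp0 x)
    have h2 := le_max_left (p v - a) 0
    have h3 := le_max_right (p v - a) 0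
    have h4 := le_max_left (a - p x) 0
    have h5 := le_max_right (a - p x) 0
    refine max_le ?_ ?_ <;> linarith
  have h2 : ∑ x, ∑ v ∈ T.O x, p x * max (p v - a) 0 = 2 * m * ∑ v, p v * max (p v - a) 0 :=
    T.sum_arc hp fun v => max (p v - a) 0
  have h3 : ∑ x, ∑ v ∈ T.O x, p x * max (a - p x) 0 = 2 * m * ∑ x, p x * max (a - p x) 0 := by
    simp_rw [sum_const, T.card_O, nsmul_eq_mul]
    rw [← mul_sum]
    push_cast
    ring
  rw [h2, h3, ← mul_add, ← sum_add_distrib] at h1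
  refine h1.trans (le_of_eq ?_)
  congr 1
  refine sum_congr rfl fun x _ => ?_
  rw [← mul_add]
  congr 1
  rcases le_total (p x) a with h | h
  · rw [max_eq_right (by linarith), max_eq_left (by linarith), abs_of_nonpos (by linarith)]
    ring
  · rw [max_eq_left (by linarith), max_eq_right (by linarith), abs_of_nonneg (by linarith)]
    ring

include T in
/-- **Main bound**: a tight structure with parameter `m` has at least `(6 + √35) m` vertices. -/
theorem card_ge_sqrt [Nonempty V] : (6 + √35) * m ≤ (Fintype.card V : ℝ) := by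
  rcases Nat.eq_zero_or_pos m with hm | hm
  · simp [hm]
  have hm' : (0 : ℝ) < m := by exact_mod_cast hm
  obtain ⟨p, hp0, hpos, hp⟩ := exists_stationary T.O (2 * m) T.card_O
  set P : ℝ := ∑ x, p x with hP
  set q : ℝ := ∑ x, p x ^ 2 with hq
  set N : ℝ := (Fintype.card V : ℝ) with hN
  have hN0 : 0 < N := by
    rw [hN]
    exact_mod_cast Fintype.card_pos
  have hs : √35 * √35 = 35 := Real.mul_self_sqrt (by norm_num)
  have hs0 : 0 ≤ √35 := Real.sqrt_nonneg _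
  have hs6 : √35 < 6 := by nlinarith
  set s : ℝ := √35 with hsdef
  set a : ℝ := P / N with ha
  have h1 := T.sum_ineq hm hp0 hp
  have h2 := T.sum_pos_part hp0 hp a
  have h3 : 2 * ∑ x, p x * |p x - a| ≤ (6 - s) * q + (6 + s) * ∑ x, (p x - a) ^ 2 := by
    rw [hq, mul_sum, mul_sum, mul_sum, ← sum_add_distrib]
    refine sum_le_sum fun x _ => ?_
    have h4 : 0 ≤ (6 - s) * (p x - (6 + s) * |p x - a|) ^ 2 := by
      have : 0 ≤ 6 - s := by linarith
      positivity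
    have h5 : |p x - a| ^ 2 = (p x - a) ^ 2 := sq_abs _
    have h6 : (6 - s) * (p x - (6 + s) * |p x - a|) ^ 2
        = (6 - s) * p x ^ 2 - 2 * ((6 - s) * (6 + s)) * (p x * |p x - a|)
          + ((6 - s) * (6 + s)) * (6 + s) * |p x - a| ^ 2 := by ring
    have h7 : (6 - s) * (6 + s) = 1 := by linarith
    rw [h6, h7, h5] at h4
    linarith
  have h4 : ∑ x, (p x - a) ^ 2 = q - P ^ 2 / N := by
    have e1 : ∀ x, (p x - a) ^ 2 = p x ^ 2 - 2 * a * p x + a ^ 2 := fun x => by ring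
    simp_rw [e1, sum_add_distrib, sum_sub_distrib, ← mul_sum]
    rw [sum_const, card_univ, nsmul_eq_mul, ← hP, ← hq, ← hN, ha]
    field_simp
    ring
  rw [h4] at h3
  have h5 : (m : ℝ) * (2 * ∑ x, p x * |p x - a|)
      ≤ m * ((6 - s) * q + (6 + s) * (q - P ^ 2 / N)) := mul_le_mul_of_nonneg_left h3 hm'.le
  have h6 : (6 + s) * m * (P ^ 2 / N) ≤ P ^ 2 := by
    have h7 : 12 * m * q ≤ P ^ 2 + m * (2 * ∑ x, p x * |p x - a|) := by linarith
    have h8 : (m : ℝ) * ((6 - s) * q + (6 + s) * (q - P ^ 2 / N))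
        = 12 * m * q - (6 + s) * m * (P ^ 2 / N) := by ring
    linarith
  have hP2 : 0 < P ^ 2 := by positivity
  have h7 : (6 + s) * m * (P ^ 2 / N) = ((6 + s) * m / N) * P ^ 2 := by ring
  rw [h7] at h6
  have h8 : (6 + s) * m / N ≤ 1 := by
    by_contra h
    push Not at h
    nlinarith
  rwa [div_le_one hN0] at h8

end Tight

end Pool.Agent.Helper8.RM
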